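import Pool.Agent.Lib.MP_b94b02_co.Defs

set_option autoImplicit false

namespace Pool.Agent.Lib.MP_b94b02_co

open Polynomial Finset Equiv

lemma exc_decompose_zero {n : ℕ} (e : Perm (Fin n)) :
    exc (Perm.decomposeFin.symm (0, e)) = exc e := by
  unfold exc
  rw [Fin.card_filter_univ_succ]
  simp [Perm.decomposeFin_symm_apply_succ]

lemma exc_decompose_succ {n : ℕ} (e : Perm (Fin n)) (i : Fin n) :
    exc (Perm.decomposeFin.symm ((e i).succ, e)) = if i < e i then exc e else exc e + 1 := by
  unfold exc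
  rw [Fin.card_filter_univ_succ]
  simp only [Perm.decomposeFin_symm_apply_zero, Fin.succ_pos, if_true,
    Perm.decomposeFin_symm_apply_succ]
  have key : (univ.filter fun x : Fin n => x.succ < swap 0 (e i).succ (e x).succ) =
      (univ.filter fun x : Fin n => x < e x).erase i := by
    ext x
    simp only [mem_filter, mem_univ, true_and, mem_erase]
    by_cases hx : x = i
    · subst hx
      simp
    · have h1 : (e x).succ ≠ (e i).succ := by
        intro h
        exact hx (e.injective (Fin.succ_injective _ h))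
      rw [swap_apply_of_ne_of_ne (Fin.succ_ne_zero _) h1]
      simp [hx]
  rw [key]
  split_ifs with h
  · rw [card_erase_add_one (by simpa using h)]
  · rw [erase_eq_of_notMem (by simpa using h)]

lemma exc_le {n : ℕ} (e : Perm (Fin n)) : exc e ≤ n := by
  unfold exc
  exact (card_filter_le _ _).trans (by simp)

lemma exc_le_pred {n : ℕ} (e : Perm (Fin (n + 1))) : exc e ≤ n := by
  unfold exc
  have : (univ.filter fun i : Fin (n + 1) => i < e i) ⊆ univ.erase (Fin.last n) := by
    intro x hx
    simp only [mem_filter, mem_univ, true_and] at hx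
    simp only [mem_erase, mem_univ, and_true]
    rintro rfl
    exact absurd hx (not_lt.mpr (Fin.le_last _))
  have h := card_le_card this
  rw [card_erase_of_mem (mem_univ _)] at h
  simpa using h

lemma sum_perm_succ {M : Type} [AddCommMonoid M] {n : ℕ} (f : ℤˣ → ℕ → M) :
    ∑ σ : Perm (Fin (n + 1)), f (Perm.sign σ) (exc σ) =
      ∑ e : Perm (Fin n), (f (Perm.sign e) (exc e) + exc e • f (-Perm.sign e) (exc e) +
        (n - exc e) • f (-Perm.sign e) (exc e + 1)) := by
  rw [← Perm.decomposeFin.symm.sum_comp, Fintype.sum_prod_type_right]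
  refine sum_congr rfl fun e _ => ?_
  rw [Fin.sum_univ_succ, exc_decompose_zero, Perm.decomposeFin.symm_sign, if_pos rfl, one_mul,
    add_assoc]
  congr 1
  rw [← Equiv.sum_comp e]
  have : ∀ i : Fin n, f (Perm.sign (Perm.decomposeFin.symm ((e i).succ, e)))
      (exc (Perm.decomposeFin.symm ((e i).succ, e))) =
      if i < e i then f (-Perm.sign e) (exc e) else f (-Perm.sign e) (exc e + 1) := by
    intro i
    rw [exc_decompose_succ, Perm.decomposeFin.symm_sign, if_neg (Fin.succ_ne_zero _), neg_one_mul]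
    split_ifs <;> rfl
  rw [sum_congr rfl fun i _ => this i, sum_ite, sum_const, sum_const]
  have h2 := card_filter_add_card_filter_not (s := (univ : Finset (Fin n))) (fun i => i < e i)
  rw [card_univ, Fintype.card_fin] at h2
  have h3 : (univ.filter fun i : Fin n => ¬ i < e i).card = n - exc e := by
    unfold exc; omega
  rw [h3]
  rfl

/-- The polynomials `H m`, the Eulerian polynomial of order `m + 1` after the substitution
`t = -s / (1 - s)`. -/
noncomputable def H : ℕ → ℝ[X]
  | 0 => 1
  | m + 1 => derivative (X * (1 - X) * H m)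

lemma sum_hom (m : ℕ) :
    ∑ σ : Perm (Fin (m + 1)), ((-X : ℝ[X]) ^ exc σ * (1 - X) ^ (m - exc σ)) = H m := by
  induction m with
  | zero =>
    have : ∀ σ : Perm (Fin 1), exc σ = 0 := fun σ => Nat.le_zero.mp (exc_le_pred σ)
    simp [this, H]
  | succ m ih =>
    rw [sum_perm_succ (fun _ k => (-X : ℝ[X]) ^ k * (1 - X) ^ (m + 1 - k)), H, ← ih, mul_sum,
      derivative_sum]
    refine sum_congr rfl fun e _ => ?_
    obtain ⟨j, hj⟩ := Nat.exists_eq_add_of_le (exc_le_pred e)
    generalize exc e = k at hj ⊢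
    subst hj
    have e1 : k + j + 1 - k = j + 1 := by omega
    have e2 : k + j + 1 - (k + 1) = j := by omega
    have e3 : k + j - k = j := by omega
    have e4 : (X * (1 - X) * ((-X) ^ k * (1 - X) ^ j) : ℝ[X]) =
        -((-X) ^ (k + 1) * (1 - X) ^ (j + 1)) := by ring
    rw [e1, e2, e3, e4]
    simp only [derivative_neg, derivative_mul, derivative_pow_succ, derivative_X, derivative_sub,
      derivative_one, nsmul_eq_mul, map_add, map_natCast, map_one]
    push_cast
    ring

lemma sum_hom_sign (m : ℕ) :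
    ∑ σ : Perm (Fin (m + 1)), (((Perm.sign σ : ℤ) : ℝ[X]) *
      ((-X : ℝ[X]) ^ exc σ * (1 - X) ^ (m - exc σ))) = 1 := by
  induction m with
  | zero =>
    have : ∀ σ : Perm (Fin 1), exc σ = 0 := fun σ => Nat.le_zero.mp (exc_le_pred σ)
    simp [this, Subsingleton.elim _ (1 : Perm (Fin 1))]
  | succ m ih =>
    rw [sum_perm_succ (fun ε k => ((ε : ℤ) : ℝ[X]) * ((-X : ℝ[X]) ^ k * (1 - X) ^ (m + 1 - k)))]
    have h2 := congrArg (fun p : ℝ[X] => p + (-X) * (1 - X) * derivative p) ih
    simp only [derivative_one, mul_zero, add_zero] at h2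
    refine Eq.trans ?_ h2
    rw [derivative_sum, mul_sum, ← sum_add_distrib]
    refine sum_congr rfl fun e _ => ?_
    obtain ⟨j, hj⟩ := Nat.exists_eq_add_of_le (exc_le_pred e)
    generalize exc e = k at hj ⊢
    subst hj
    have e1 : k + j + 1 - k = j + 1 := by omega
    have e2 : k + j + 1 - (k + 1) = j := by omega
    have e3 : k + j - k = j := by omega
    rw [e1, e2, e3]
    simp only [Units.val_neg, Int.cast_neg, nsmul_eq_mul]
    generalize ((Perm.sign e : ℤˣ) : ℤ) = c
    rcases k with _ | k <;> rcases j with _ | j <;>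
    · simp only [derivative_neg, derivative_mul, derivative_pow_succ, derivative_X, derivative_sub,
        derivative_one, map_add, map_natCast, map_one, derivative_intCast, pow_zero]
      push_cast
      ring

lemma excPoly_eq_sum (n : ℕ) (ε : ℤˣ) :
    excPoly n ε = ∑ σ ∈ univ.filter (fun σ : Perm (Fin n) => Perm.sign σ = ε), X ^ exc σ := by
  unfold excPoly excCount
  rw [← sum_fiberwise_of_maps_to (s := univ.filter (fun σ : Perm (Fin n) => Perm.sign σ = ε))
    (t := range (n + 1)) (g := exc) (fun σ _ => mem_range.mpr (Nat.lt_succ_of_le (exc_le σ)))]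
  refine sum_congr rfl fun k _ => ?_
  rw [filter_filter, sum_congr rfl (g := fun _ => (X : ℝ[X]) ^ k)
    (fun σ hσ => by rw [(mem_filter.mp hσ).2.2]), sum_const, nsmul_eq_mul, map_natCast]

lemma natDegree_excPoly_le (m : ℕ) (ε : ℤˣ) : (excPoly (m + 1) ε).natDegree ≤ m := by
  rw [excPoly_eq_sum]
  refine natDegree_sum_le_of_forall_le _ _ fun σ _ => ?_
  rw [natDegree_X_pow]
  exact exc_le_pred σ

/-- The basic evaluation identity. -/
lemma eval_excPoly (m : ℕ) (ε : ℤˣ) (s : ℝ) (hs : s ≠ 1) :
    2 * ((1 - s) ^ m * (excPoly (m + 1) ε).eval (-s / (1 - s))) =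
      (H m).eval s + ((ε : ℤ) : ℝ) := by
  have h1 := congrArg (eval s) (sum_hom m)
  have h2 := congrArg (eval s) (sum_hom_sign m)
  rw [eval_one] at h2
  have h3 := congrArg (fun x : ℝ => ((ε : ℤ) : ℝ) * x) h2
  simp only [mul_one] at h3
  refine Eq.trans ?_ (congrArg₂ (· + ·) h1 h3)
  rw [excPoly_eq_sum, eval_finsetSum, eval_finsetSum,
    eval_finsetSum, sum_filter, mul_sum, mul_sum, mul_sum, ← sum_add_distrib]
  refine sum_congr rfl fun σ _ => ?_
  obtain ⟨j, hj⟩ := Nat.exists_eq_add_of_le (exc_le_pred σ)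
  generalize exc σ = k at hj ⊢
  subst hj
  have e3 : k + j - k = j := by omega
  have hs' : (1 - s) ≠ 0 := sub_ne_zero.mpr hs.symm
  rw [e3]
  simp only [eval_mul, eval_pow, eval_neg, eval_X, eval_sub, eval_one, eval_intCast]
  rcases Int.units_eq_one_or ε with rfl | rfl <;>
    rcases Int.units_eq_one_or (Perm.sign σ) with h | h <;> simp [h, div_pow] <;>
    field_simp <;> ring

end Pool.Agent.Lib.MP_b94b02_co
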