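import Mathlib

set_option autoImplicit false

namespace Pool.Agent.Lib.MP_b94b02_co

open Polynomial

/-- The number of excedances of `σ`: indices `i` with `σ i > i`. -/
def exc {n : ℕ} (σ : Equiv.Perm (Fin n)) : ℕ :=
  (Finset.univ.filter fun i : Fin n => i < σ i).card

/-- The number of permutations of `n` letters with sign `ε` and exactly `k` excedances. -/
def excCount (n : ℕ) (ε : ℤˣ) (k : ℕ) : ℕ :=
  (Finset.univ.filter fun σ : Equiv.Perm (Fin n) => Equiv.Perm.sign σ = ε ∧ exc σ = k).card

/-- The excedance polynomial of the permutations of sign `ε`. -/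
noncomputable def excPoly (n : ℕ) (ε : ℤˣ) : ℝ[X] :=
  ∑ k ∈ Finset.range (n + 1), C (excCount n ε k : ℝ) * X ^ k

/-- A real polynomial is real-rooted if all of its complex roots are real. -/
def RealRooted (p : ℝ[X]) : Prop :=
  ∀ z : ℂ, aeval z p = 0 → z.im = 0

end Pool.Agent.Lib.MP_b94b02_co
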