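import Pool.Agent.Lib.MP_b94b02_co.Comb

set_option autoImplicit false

namespace Pool.Agent.Lib.MP_b94b02_co

open Polynomial Finset

lemma H_succ (m : ℕ) : H (m + 1) = derivative (X * (1 - X) * H m) := rfl

lemma coeff_H_succ_zero (m : ℕ) : (H (m + 1)).coeff 0 = (H m).coeff 0 := by
  have : (X * (1 - X) * H m : ℝ[X]) = X * (H m - X * H m) := by ring
  rw [H_succ, coeff_derivative, this, coeff_X_mul, coeff_sub, coeff_X_mul_zero]
  simp

lemma coeff_H_succ_succ (m k : ℕ) :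
    (H (m + 1)).coeff (k + 1) = (k + 2) * ((H m).coeff (k + 1) - (H m).coeff k) := by
  have : (X * (1 - X) * H m : ℝ[X]) = X * (H m - X * H m) := by ring
  rw [H_succ, coeff_derivative, this, coeff_X_mul, coeff_sub, coeff_X_mul]
  push_cast
  ring

/-- The unsigned coefficients of `H m`. -/
noncomputable def c (m k : ℕ) : ℝ := (-1) ^ k * (H m).coeff k

lemma c_succ_succ (m k : ℕ) : c (m + 1) (k + 1) = (k + 2) * (c m (k + 1) + c m k) := by
  unfold c
  rw [coeff_H_succ_succ]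
  ring

lemma c_zero_succ (k : ℕ) : c 0 (k + 1) = 0 := by
  simp [c, H, coeff_one]

lemma c_zero (m : ℕ) : c m 0 = 1 := by
  induction m with
  | zero => simp [c, H]
  | succ m ih =>
    unfold c at ih ⊢
    rw [coeff_H_succ_zero, ih]

lemma c_one (m : ℕ) : c m 1 = 2 ^ (m + 1) - 2 := by
  induction m with
  | zero => rw [c_zero_succ]; norm_num
  | succ m ih => rw [c_succ_succ, ih, c_zero]; push_cast; ring

lemma c_two (m : ℕ) : c m 2 = 3 ^ (m + 1) - 3 * 2 ^ (m + 1) + 3 := by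
  induction m with
  | zero => rw [c_zero_succ]; norm_num
  | succ m ih => rw [c_succ_succ, ih, c_one]; push_cast; ring

lemma c_three (m : ℕ) : c m 3 = 4 ^ (m + 1) - 4 * 3 ^ (m + 1) + 6 * 2 ^ (m + 1) - 4 := by
  induction m with
  | zero => rw [c_zero_succ]; norm_num
  | succ m ih => rw [c_succ_succ, ih, c_two]; push_cast; ring

lemma c_nonneg (m k : ℕ) : 0 ≤ c m k := by
  induction m generalizing k with
  | zero =>
    rcases k with _ | k
    · rw [c_zero]; norm_num
    · rw [c_zero_succ]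
  | succ m ih =>
    rcases k with _ | k
    · rw [c_zero]; norm_num
    · rw [c_succ_succ]
      have := ih (k + 1)
      have := ih k
      positivity

lemma c_ratio_two (m : ℕ) : c m 3 ≤ (4 / 3) ^ (m + 1) * c m 2 := by
  rw [c_three, c_two]
  have e1 : ((4 : ℝ) / 3) ^ (m + 1) * 3 ^ (m + 1) = 4 ^ (m + 1) := by
    rw [← mul_pow]; norm_num
  have e2 : ((4 : ℝ) / 3) ^ (m + 1) * 2 ^ (m + 1) = (8 / 9) ^ (m + 1) * 3 ^ (m + 1) := by
    rw [← mul_pow, ← mul_pow]; norm_num
  have e3 : (2 : ℝ) ^ (m + 1) = (2 / 3) ^ (m + 1) * 3 ^ (m + 1) := by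
    rw [← mul_pow]; norm_num
  rcases Nat.lt_or_ge m 2 with h | h
  · interval_cases m <;> norm_num
  · have h1 : ((8 : ℝ) / 9) ^ (m + 1) ≤ (8 / 9) ^ 3 :=
      pow_le_pow_of_le_one (by norm_num) (by norm_num) (by omega)
    have h2 : ((2 : ℝ) / 3) ^ (m + 1) ≤ (2 / 3) ^ 3 :=
      pow_le_pow_of_le_one (by norm_num) (by norm_num) (by omega)
    have h3 : (0 : ℝ) < 3 ^ (m + 1) := by positivity
    have h4 : (0 : ℝ) < (4 / 3) ^ (m + 1) := by positivity
    have h5 := mul_le_mul_of_nonneg_right h1 h3.le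
    have h6 := mul_le_mul_of_nonneg_right h2 h3.le
    rw [mul_add, mul_sub, e1, mul_left_comm, e2]
    rw [← e3] at h6
    nlinarith

lemma c_ratio (m k : ℕ) : c m (k + 3) ≤ (4 / 3) ^ (m + 1) * c m (k + 2) := by
  induction m generalizing k with
  | zero => rw [c_zero_succ, c_zero_succ]; simp
  | succ m ih =>
    rcases k with _ | k
    · exact c_ratio_two _
    · have h1 := ih (k + 1)
      have h2 := ih k
      have h3 := c_nonneg m (k + 3)
      have h4 := c_nonneg m (k + 2)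
      have h5 : (0 : ℝ) < (4 / 3) ^ (m + 1) := by positivity
      have h6 : (0 : ℝ) ≤ k := Nat.cast_nonneg k
      rw [show k + 1 + 3 = (k + 3) + 1 from rfl, show k + 1 + 2 = (k + 2) + 1 from rfl,
        c_succ_succ, c_succ_succ, pow_succ _ (m + 1)]
      rw [show k + 1 + 3 = k + 3 + 1 from rfl, show k + 1 + 2 = k + 3 from rfl] at h1
      rw [show k + 2 + 1 = k + 3 from rfl]
      push_cast
      set R : ℝ := (4 / 3) ^ (m + 1)
      have h7 : c m (k + 3 + 1) + c m (k + 3) ≤ R * (c m (k + 3) + c m (k + 2)) := by linarith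
      have h8 : 0 ≤ R * (c m (k + 3) + c m (k + 2)) := by positivity
      calc ((k : ℝ) + 3 + 2) * (c m (k + 3 + 1) + c m (k + 3))
          ≤ ((k : ℝ) + 3 + 2) * (R * (c m (k + 3) + c m (k + 2))) :=
            mul_le_mul_of_nonneg_left h7 (by positivity)
        _ ≤ (4 / 3 * ((k : ℝ) + 2 + 2)) * (R * (c m (k + 3) + c m (k + 2))) :=
            mul_le_mul_of_nonneg_right (by linarith) h8
        _ = _ := by ring

lemma natDegree_H_le (m : ℕ) : (H m).natDegree ≤ m := by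
  induction m with
  | zero => simp [H]
  | succ m ih =>
    rw [H_succ]
    refine (natDegree_derivative_le _).trans ?_
    have h1 : (X * (1 - X) : ℝ[X]).natDegree ≤ 2 := by compute_degree
    have h2 := natDegree_mul_le (p := (X * (1 - X) : ℝ[X])) (q := H m)
    omega

lemma coeff_H (m k : ℕ) : (H m).coeff k = (-1) ^ k * c m k := by
  unfold c
  rw [← mul_assoc, ← mul_pow]
  simp

lemma eval_H_zero (m : ℕ) : (H m).eval 0 = 1 := by
  rw [← coeff_zero_eq_eval_zero, coeff_H, c_zero]; simp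

lemma H_ne_zero (m : ℕ) : H m ≠ 0 := by
  intro h
  have := eval_H_zero m
  rw [h] at this
  simp at this

lemma H_comp (m : ℕ) : (H m).comp (1 - X) = (-1) ^ m * H m := by
  induction m with
  | zero => simp [H]
  | succ m ih =>
    have h1 := derivative_comp (X * (1 - X) * H m) (1 - X)
    rw [← H_succ] at h1
    have h2 : (X * (1 - X) * H m).comp (1 - X) = C ((-1) ^ m) * (X * (1 - X) * H m) := by
      simp only [mul_comp, X_comp, sub_comp, one_comp, ih, map_pow, map_neg, map_one]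
      ring
    rw [h2, derivative_C_mul, ← H_succ] at h1
    simp only [derivative_sub, derivative_one, derivative_X, map_pow, map_neg, map_one] at h1
    linear_combination h1

lemma eval_H_symm (m : ℕ) (s : ℝ) : (H m).eval (1 - s) = (-1) ^ m * (H m).eval s := by
  have := congrArg (eval s) (H_comp m)
  simpa [eval_comp] using this

lemma alt_sum (N : ℕ) (b : ℕ → ℝ) (h0 : ∀ k, 0 ≤ b k) (hb : ∀ k, b (k + 1) ≤ b k) :
    0 ≤ ∑ k ∈ range N, (-1) ^ k * b k ∧ ∑ k ∈ range N, (-1) ^ k * b k ≤ b 0 := by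
  induction N generalizing b with
  | zero => simpa using h0 0
  | succ N ih =>
    obtain ⟨h1, h2⟩ := ih (fun k => b (k + 1)) (fun k => h0 _) (fun k => hb _)
    have : ∑ k ∈ range (N + 1), (-1) ^ k * b k = b 0 - ∑ k ∈ range N, (-1) ^ k * b (k + 1) := by
      rw [sum_range_succ', sub_eq_neg_add, ← sum_neg_distrib]
      congr 1
      · exact sum_congr rfl fun k _ => by ring
      · simp
    rw [this]
    have := hb 0
    constructor <;> linarith

lemma eval_H_eq (m : ℕ) (s : ℝ) :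
    (H m).eval s = 1 - c m 1 * s + c m 2 * s ^ 2 -
      ∑ k ∈ range m, (-1) ^ k * (c m (k + 3) * s ^ (k + 3)) := by
  rw [eval_eq_sum_range' (n := m + 3) (by have := natDegree_H_le m; omega), sum_range_succ',
    sum_range_succ', sum_range_succ', sub_eq_add_neg _ (∑ k ∈ range m, _), ← sum_neg_distrib]
  simp only [coeff_H, c_zero]
  rw [sum_congr rfl (g := fun k => -((-1) ^ k * (c m (k + 3) * s ^ (k + 3))))
    (fun k _ => by ring)]
  ring

lemma tail_bounds (m : ℕ) (s : ℝ) (hs : 0 ≤ s) (hs' : (4 / 3) ^ (m + 1) * s ≤ 1) :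
    0 ≤ ∑ k ∈ range m, (-1) ^ k * (c m (k + 3) * s ^ (k + 3)) ∧
    ∑ k ∈ range m, (-1) ^ k * (c m (k + 3) * s ^ (k + 3)) ≤ c m 3 * s ^ 3 := by
  refine alt_sum m (fun k => c m (k + 3) * s ^ (k + 3))
    (fun k => mul_nonneg (c_nonneg _ _) (by positivity)) fun k => ?_
  have h1 := c_ratio m (k + 1)
  have h2 := c_nonneg m (k + 3)
  have h3 : 0 ≤ s ^ (k + 3) := by positivity
  rw [show k + 1 + 2 = k + 3 from rfl] at h1
  calc c m (k + 1 + 3) * s ^ (k + 1 + 3)
      ≤ ((4 / 3) ^ (m + 1) * c m (k + 3)) * s ^ (k + 1 + 3) :=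
        mul_le_mul_of_nonneg_right h1 (by positivity)
    _ = ((4 / 3) ^ (m + 1) * s) * (c m (k + 3) * s ^ (k + 3)) := by ring
    _ ≤ 1 * (c m (k + 3) * s ^ (k + 3)) := mul_le_mul_of_nonneg_right hs' (by positivity)
    _ = _ := one_mul _

/-- First bump. -/
lemma bump_one (m : ℕ) (hm : 10 ≤ m) : (H m).eval ((2 / 3) ^ (m + 1) / 2) < -1 := by
  set s : ℝ := (2 / 3) ^ (m + 1) / 2 with hs
  have hs0 : 0 < s := by positivity
  have e1 : ((4 : ℝ) / 3) ^ (m + 1) * s = (8 / 9) ^ (m + 1) / 2 := by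
    rw [hs, ← mul_div_assoc, ← mul_pow]; norm_num
  have h1 : ((8 : ℝ) / 9) ^ (m + 1) ≤ 1 := pow_le_one₀ (by norm_num) (by norm_num)
  obtain ⟨t1, -⟩ := tail_bounds m s hs0.le (by rw [e1]; linarith)
  rw [eval_H_eq, c_one, c_two]
  have e2 : (2 : ℝ) ^ (m + 1) * s = (4 / 3) ^ (m + 1) / 2 := by
    rw [hs, ← mul_div_assoc, ← mul_pow]; norm_num
  have e3 : (3 : ℝ) ^ (m + 1) * s ^ 2 = (4 / 3) ^ (m + 1) / 4 := by
    rw [hs, div_pow, ← pow_mul, mul_comm (m + 1) 2, pow_mul, ← mul_div_assoc, ← mul_pow]; norm_num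
  have h2 : ((4 : ℝ) / 3) ^ 11 ≤ (4 / 3) ^ (m + 1) := pow_le_pow_right₀ (by norm_num) (by omega)
  have h3 : ((2 : ℝ) / 3) ^ (m + 1) ≤ 1 := pow_le_one₀ (by norm_num) (by norm_num)
  have h4 : (1 : ℝ) ≤ 2 ^ (m + 1) := one_le_pow₀ (by norm_num)
  have h5 : (-3 * 2 ^ (m + 1) + 3) * s ^ 2 ≤ 0 :=
    mul_nonpos_of_nonpos_of_nonneg (by linarith) (by positivity)
  have h6 : s ≤ 1 / 2 := by rw [hs]; linarith
  norm_num at h2
  nlinarith

/-- Second bump. -/
lemma bump_two (m : ℕ) (hm : 20 ≤ m) : 1 < (H m).eval ((3 / 4) ^ (m + 1) / 3) := by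
  set s : ℝ := (3 / 4) ^ (m + 1) / 3 with hs
  have hs0 : 0 < s := by positivity
  have e1 : ((4 : ℝ) / 3) ^ (m + 1) * s = 1 / 3 := by
    rw [hs, ← mul_div_assoc, ← mul_pow]; norm_num
  obtain ⟨-, t2⟩ := tail_bounds m s hs0.le (by rw [e1]; linarith)
  have h1 := c_ratio_two m
  have h2 : c m 3 * s ^ 3 ≤ c m 2 * s ^ 2 / 3 := by
    calc c m 3 * s ^ 3 ≤ ((4 / 3) ^ (m + 1) * c m 2) * s ^ 3 :=
          mul_le_mul_of_nonneg_right h1 (by positivity)
      _ = ((4 / 3) ^ (m + 1) * s) * (c m 2 * s ^ 2) := by ring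
      _ = _ := by rw [e1]; ring
  have h3 : c m 1 < 2 / 3 * c m 2 * s := by
    rw [c_one, c_two]
    have e2 : (3 : ℝ) ^ (m + 1) * s = (9 / 8) ^ (m + 1) * 2 ^ (m + 1) / 3 := by
      rw [hs, ← mul_div_assoc, ← mul_pow, ← mul_pow]; norm_num
    have h4 : ((9 : ℝ) / 8) ^ 21 ≤ (9 / 8) ^ (m + 1) := pow_le_pow_right₀ (by norm_num) (by omega)
    have h5 : ((3 : ℝ) / 4) ^ (m + 1) ≤ 1 := pow_le_one₀ (by norm_num) (by norm_num)
    have h6 : (0 : ℝ) < 2 ^ (m + 1) := by positivity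
    have h7 : s ≤ 1 / 3 := by rw [hs]; linarith
    have h8 := mul_le_mul_of_nonneg_right h4 h6.le
    have h9 := mul_le_mul_of_nonneg_left h7 h6.le
    norm_num at h8
    nlinarith
  rw [eval_H_eq]
  have := mul_lt_mul_of_pos_right h3 hs0
  nlinarith

/-- Convexity near zero. -/
lemma second_deriv_pos (m : ℕ) (hm : 2 ≤ m) (s : ℝ) (hs : 0 ≤ s)
    (hs' : s ≤ (3 / 4) ^ (m + 2) / 3) : 0 < (derivative (derivative (H m))).eval s := by
  have hd : (derivative (derivative (H m))).natDegree < m + 2 := by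
    have h1 := natDegree_derivative_le (derivative (H m))
    have h2 := natDegree_derivative_le (H m)
    have h3 := natDegree_H_le m
    omega
  have e1 : ((4 : ℝ) / 3) ^ (m + 1) * s ≤ 1 / 4 := by
    calc ((4 : ℝ) / 3) ^ (m + 1) * s ≤ (4 / 3) ^ (m + 1) * ((3 / 4) ^ (m + 2) / 3) :=
          mul_le_mul_of_nonneg_left hs' (by positivity)
      _ = 1 / 4 := by
          rw [pow_succ _ (m + 1), ← mul_div_assoc, ← mul_assoc, ← mul_pow]; norm_num
  set b : ℕ → ℝ := fun k => (k + 2) * (k + 1) * (c m (k + 2) * s ^ k) with hb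
  have hb0 : ∀ k, 0 ≤ b k := fun k => by
    have := c_nonneg m (k + 2)
    simp only [hb]
    positivity
  have hb1 : ∀ k, b (k + 1) ≤ 3 / 4 * b k := by
    intro k
    have h1 := c_ratio m k
    have h2 := c_nonneg m (k + 2)
    have h3 : (0 : ℝ) ≤ k := Nat.cast_nonneg k
    simp only [hb]
    push_cast
    have h4 : c m (k + 1 + 2) * s ^ (k + 1) ≤ 1 / 4 * (c m (k + 2) * s ^ k) := by
      calc c m (k + 1 + 2) * s ^ (k + 1) ≤ ((4 / 3) ^ (m + 1) * c m (k + 2)) * s ^ (k + 1) :=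
            mul_le_mul_of_nonneg_right h1 (by positivity)
        _ = ((4 / 3) ^ (m + 1) * s) * (c m (k + 2) * s ^ k) := by ring
        _ ≤ _ := mul_le_mul_of_nonneg_right e1 (by positivity)
    have h5 : 0 ≤ c m (k + 2) * s ^ k := by positivity
    calc ((k : ℝ) + 1 + 2) * (k + 1 + 1) * (c m (k + 1 + 2) * s ^ (k + 1))
        ≤ ((k : ℝ) + 1 + 2) * (k + 1 + 1) * (1 / 4 * (c m (k + 2) * s ^ k)) :=
          mul_le_mul_of_nonneg_left h4 (by positivity)
      _ = (((k : ℝ) + 3) * (k + 2) / 4) * (c m (k + 2) * s ^ k) := by ring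
      _ ≤ (3 / 4 * ((k + 2) * (k + 1))) * (c m (k + 2) * s ^ k) :=
          mul_le_mul_of_nonneg_right (by nlinarith) h5
      _ = _ := by ring
  have hb2 : ∀ k, b (k + 1) ≤ b k := fun k => by
    have := hb1 k
    have := hb0 k
    linarith
  have hsum : (derivative (derivative (H m))).eval s = ∑ k ∈ range (m + 2), (-1) ^ k * b k := by
    rw [eval_eq_sum_range' hd]
    refine sum_congr rfl fun k _ => ?_
    rw [coeff_derivative, coeff_derivative, coeff_H]
    simp only [hb]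
    push_cast
    ring
  obtain ⟨-, h2⟩ := alt_sum (m + 1) (fun k => b (k + 1)) (fun k => hb0 _) (fun k => hb2 _)
  have : ∑ k ∈ range (m + 2), (-1) ^ k * b k =
      b 0 - ∑ k ∈ range (m + 1), (-1) ^ k * b (k + 1) := by
    rw [sum_range_succ', sub_eq_neg_add, ← sum_neg_distrib]
    congr 1
    · exact sum_congr rfl fun k _ => by ring
    · simp
  have hpos : 0 < b 0 := by
    simp only [hb]
    have h3 : 0 < c m 2 := by
      rw [c_two]
      have e3 : (3 : ℝ) ^ (m + 1) = (3 / 2) ^ (m + 1) * 2 ^ (m + 1) := by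
        rw [← mul_pow]; norm_num
      have h4 : ((3 : ℝ) / 2) ^ 3 ≤ (3 / 2) ^ (m + 1) := pow_le_pow_right₀ (by norm_num) (by omega)
      have h6 : (0 : ℝ) < 2 ^ (m + 1) := by positivity
      have h8 := mul_le_mul_of_nonneg_right h4 h6.le
      rw [e3]
      nlinarith
    simpa using h3
  rw [hsum, this]
  have := hb1 0
  simp only [zero_add] at h2 this
  linarith

end Pool.Agent.Lib.MP_b94b02_co
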