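import Pool.Agent.Lib.MP_b94b02_co.Spline
import Pool.Agent.Lib.MP_b94b02_co.Small

set_option autoImplicit false

namespace Pool.Agent.Lib.MP_b94b02_co

open Polynomial

lemma realRooted_large (n : ℕ) (hn : 44 ≤ n) (ε : ℤˣ) : RealRooted (excPoly n ε) := by
  obtain ⟨k, rfl⟩ : ∃ k, n = k + 3 := ⟨n - 3, by omega⟩
  obtain ⟨r, hr⟩ := exists_rootSeq (k + 1)
  obtain ⟨q, hq, hint⟩ := hr.step
  set s1 : ℝ := (2 / 3) ^ (k + 2 + 1) / 2 with hs1
  set s2 : ℝ := (3 / 4) ^ (k + 2 + 1) / 3 with hs2
  have b1 : (H (k + 2)).eval s1 < -1 := bump_one (k + 2) (by omega)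
  have b2 : 1 < (H (k + 2)).eval s2 := bump_two (k + 2) (by omega)
  have hs10 : 0 < s1 := by positivity
  have hs12 : s1 < s2 := by
    have e : ((3 : ℝ) / 4) ^ (k + 2 + 1) = (9 / 8) ^ (k + 2 + 1) * (2 / 3) ^ (k + 2 + 1) := by
      rw [← mul_pow]; norm_num
    have h1 : ((9 : ℝ) / 8) ^ 4 ≤ (9 / 8) ^ (k + 2 + 1) :=
      pow_le_pow_right₀ (by norm_num) (by omega)
    have h2 : (0 : ℝ) < (2 / 3) ^ (k + 2 + 1) := by positivity
    rw [hs1, hs2, e]
    nlinarith
  have hlt : ∀ i j, i < j → j ≤ k + 2 → r i < r j := fun i j => lt_of_chain hr.mono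
  have hle : ∀ i j, i ≤ j → j ≤ k + 2 → r i ≤ r j := by
    intro i j hij hj
    rcases hij.lt_or_eq with h | h
    · exact (hlt i j h hj).le
    · rw [h]
  have h3 : s2 < r 3 := by
    refine third_root (k + 1) (by omega) (a := r 1) (b := r 2) ?_ (hlt _ _ (by omega) (by omega))
      (hlt _ _ (by omega) (by omega)) (hr.root _ (by omega) (by omega))
      (hr.root _ (by omega) (by omega)) (hr.root _ (by omega) (by omega))
    rw [← hr.zero]; exact hle _ _ (by omega) (by omega)
  have h4 : s2 < 1 - r (k - 1) := by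
    have hs : ∀ i, 1 ≤ i → i ≤ k + 1 → (H (k + 1)).eval (1 - r i) = 0 := fun i h1 h2 => by
      rw [eval_H_symm, hr.root i h1 h2, mul_zero]
    refine third_root (k + 1) (by omega) (a := 1 - r (k + 1)) (b := 1 - r k) ?_ ?_ ?_
      (hs _ (by omega) (by omega)) (hs _ (by omega) (by omega)) (hs _ (by omega) (by omega))
    · have := hle (k + 1) (k + 1 + 1) (by omega) (by omega)
      rw [hr.one] at this
      linarith
    · linarith [hlt k (k + 1) (by omega) (by omega)]
    · linarith [hlt (k - 1) k (by omega) (by omega)]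
  have hmid : ∀ i, 3 ≤ i → i ≤ k - 1 → 1 < (-1) ^ i * (H (k + 2)).eval (r i) := by
    intro i h1 h2
    have h5 := hle 3 i h1 (by omega)
    have h6 := hle i (k - 1) h2 (by omega)
    have h7 := big_at_root (k + 1) (by omega) (r i) (by
      show s2 ≤ _; linarith) (by show s2 ≤ _; linarith) (hr.root i (by omega) (by omega))
    obtain ⟨j, rfl⟩ : ∃ j, i = j + 1 := ⟨i - 1, by omega⟩
    have h8 := hq.sign (i := j + 1) (by omega) (hint j (by omega)).2 (hint (j + 1) (by omega)).1
    rw [show k + 1 + 1 = k + 2 from rfl] at h7 h8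
    rcases neg_one_pow_eq_or ℝ (j + 1) with h | h <;> rw [h] at h8 ⊢
    · rw [abs_of_pos (by linarith)] at h7; linarith
    · rw [abs_of_neg (by linarith)] at h7; linarith
  set x : ℕ → ℝ := fun i => if i = 0 then 0 else if i = 1 then s1 else if i = 2 then s2
    else if i = k then 1 - s2 else if i = k + 1 then 1 - s1 else r i with hx
  have x0 : x 0 = 0 := by simp [hx]
  have x1 : x 1 = s1 := by simp [hx]
  have x2 : x 2 = s2 := by simp [hx]
  have xk : x k = 1 - s2 := by
    simp only [hx]; rw [if_neg (by omega), if_neg (by omega), if_neg (by omega)]; simp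
  have xk1 : x (k + 1) = 1 - s1 := by
    simp only [hx]
    rw [if_neg (by omega), if_neg (by omega), if_neg (by omega), if_neg (by omega)]; simp
  have xm : ∀ i, 3 ≤ i → i ≤ k - 1 → x i = r i := by
    intro i h1 h2
    simp only [hx]
    rw [if_neg (by omega), if_neg (by omega), if_neg (by omega), if_neg (by omega),
      if_neg (by omega)]
  refine realRooted_of_alt k x x0 (fun i hi => ?_) (by rw [xk1]; linarith) (fun i h1 h2 => ?_) ε
  · by_cases c0 : i = 0
    · subst c0; rw [x0, x1]; exact hs10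
    by_cases c1 : i = 1
    · subst c1; rw [x1, x2]; exact hs12
    by_cases c2 : i = 2
    · subst c2; rw [x2, xm 3 le_rfl (by omega)]; exact h3
    by_cases c3 : i = k
    · subst c3; rw [xk, xk1]; linarith
    by_cases c4 : i = k - 1
    · rw [xm i (by omega) (by omega), show i + 1 = k by omega, xk, c4]; linarith
    · rw [xm i (by omega) (by omega), xm (i + 1) (by omega) (by omega)]
      exact hlt _ _ (by omega) (by omega)
  · by_cases c1 : i = 1
    · subst c1; rw [x1]; linarith
    by_cases c2 : i = 2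
    · subst c2; rw [x2]; linarith
    by_cases c3 : i = k
    · subst c3
      rw [xk, eval_H_symm, ← mul_assoc, ← pow_add, show i + (i + 2) = 2 * (i + 1) by ring, pow_mul]
      simpa using b2
    by_cases c4 : i = k + 1
    · subst c4
      rw [xk1, eval_H_symm, ← mul_assoc, ← pow_add,
        show k + 1 + (k + 2) = 2 * (k + 1) + 1 by ring, pow_succ, pow_mul]
      simp only [even_two, Even.neg_pow, one_pow, one_mul]
      linarith
    · rw [xm i (by omega) (by omega)]
      exact hmid i (by omega) (by omega)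

lemma eval_H_four (s : ℝ) :
    (H 4).eval s = 1 - 30 * s + 150 * s ^ 2 - 240 * s ^ 3 + 120 * s ^ 4 := by
  rw [← toPoly_row]
  have : row 4 = [1, -30, 150, -240, 120] := by decide
  rw [this]
  simp [toPoly]
  ring

lemma excPoly_five (ε : ℤˣ) (p : ℝ[X])
    (hp : ∀ s : ℝ, s < 1 → 2 * ((1 - s) ^ 4 * p.eval (-s / (1 - s))) =
      (H 4).eval s + ((ε : ℤ) : ℝ)) : excPoly 5 ε = p := by
  refine eq_of_infinite_eval_eq _ _ ((Set.Iio_infinite (0 : ℝ)).mono fun t ht => ?_)
  have ht' : t < 0 := ht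
  have h1 : 0 < 1 - t := by linarith
  have hs : -t / (1 - t) < 1 := by rw [div_lt_one h1]; linarith
  have h2 := eval_excPoly 4 ε _ hs.ne
  rw [← hp _ hs] at h2
  have h3 : -(-t / (1 - t)) / (1 - -t / (1 - t)) = t := by
    have : 1 - -t / (1 - t) = 1 / (1 - t) := by field_simp; ring
    rw [this]; field_simp
  rw [h3] at h2
  have h4 : (1 - -t / (1 - t)) ^ 4 ≠ 0 := pow_ne_zero _ (by linarith)
  exact mul_left_cancel₀ h4 (mul_left_cancel₀ two_ne_zero h2)

lemma excPoly_five_neg : excPoly 5 (-1) = 15 * X * (1 + X) ^ 2 := by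
  refine excPoly_five _ _ fun s hs => ?_
  have : 1 - s ≠ 0 := by linarith
  rw [eval_H_four]
  simp only [eval_mul, eval_pow, eval_add, eval_X, eval_one, eval_ofNat, Units.val_neg,
    Units.val_one, Int.cast_neg, Int.cast_one]
  field_simp
  ring

lemma excPoly_five_pos : excPoly 5 1 = X ^ 4 + 11 * X ^ 3 + 36 * X ^ 2 + 11 * X + 1 := by
  refine excPoly_five _ _ fun s hs => ?_
  have : 1 - s ≠ 0 := by linarith
  rw [eval_H_four]
  simp only [eval_mul, eval_pow, eval_add, eval_X, eval_one, eval_ofNat,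
    Units.val_one, Int.cast_one]
  field_simp
  ring

lemma realRooted_five_neg : RealRooted (excPoly 5 (-1)) := by
  rw [excPoly_five_neg]
  intro z hz
  simp only [map_mul, map_pow, map_add, aeval_X, map_one, map_ofNat, mul_eq_zero,
    OfNat.ofNat_ne_zero, false_or, ne_eq, not_false_eq_true, pow_eq_zero_iff] at hz
  rcases hz with rfl | hz
  · simp
  · have : z = -1 := by linear_combination hz
    simp [this]

lemma not_realRooted_five_pos : ¬ RealRooted (excPoly 5 1) := by
  rw [excPoly_five_pos]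
  intro h
  have hdeg : (X ^ 4 + 11 * X ^ 3 + 36 * X ^ 2 + 11 * X + 1 : ℂ[X]).degree = 4 := by
    compute_degree!
  obtain ⟨z, hz⟩ := Complex.exists_root (f := X ^ 4 + 11 * X ^ 3 + 36 * X ^ 2 + 11 * X + 1)
    (by rw [hdeg]; norm_num)
  simp only [IsRoot, eval_mul, eval_pow, eval_add, eval_X, eval_one, eval_ofNat] at hz
  have him := h z (by
    simp only [map_mul, map_pow, map_add, aeval_X, map_one, map_ofNat]
    exact hz)
  obtain ⟨t, rfl⟩ : ∃ t : ℝ, z = (t : ℂ) := ⟨z.re, Complex.ext (by simp) (by simp [him])⟩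
  have h2 : t ^ 4 + 11 * t ^ 3 + 36 * t ^ 2 + 11 * t + 1 = 0 := by
    apply Complex.ofReal_injective
    push_cast
    exact hz
  have h3 : (t ^ 2 + 11 / 2 * t + 1) ^ 2 + 15 / 4 * t ^ 2 = 0 := by linear_combination h2
  have h4 : t ^ 2 = 0 := by nlinarith [sq_nonneg (t ^ 2 + 11 / 2 * t + 1), sq_nonneg t]
  have h5 : t = 0 := by simpa using h4
  rw [h5] at h2
  norm_num at h2

end Pool.Agent.Lib.MP_b94b02_co
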