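import Pool.Agent.Lib.MP_b94b02_co.Main

set_option autoImplicit false

/-!
Nonnegative combinations of the two excedance polynomials.
-/

namespace Pool.Agent.Lib.MP_b94b02_co

open Polynomial Finset

/-- There are alternation points. -/
def Alt (k : ℕ) : Prop :=
  ∃ x : ℕ → ℝ, x 0 = 0 ∧ (∀ i ≤ k, x i < x (i + 1)) ∧ x (k + 1) < 1 ∧
    ∀ i, 1 ≤ i → i ≤ k + 1 → 1 < (-1) ^ i * (H (k + 2)).eval (x i)

lemma alt_large (k : ℕ) (hn : 44 ≤ k + 3) : Alt k := by
  obtain ⟨r, hr⟩ := exists_rootSeq (k + 1)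
  obtain ⟨q, hq, hint⟩ := hr.step
  set s1 : ℝ := (2 / 3) ^ (k + 2 + 1) / 2 with hs1
  set s2 : ℝ := (3 / 4) ^ (k + 2 + 1) / 3 with hs2
  have b1 : (H (k + 2)).eval s1 < -1 := bump_one (k + 2) (by omega)
  have b2 : 1 < (H (k + 2)).eval s2 := bump_two (k + 2) (by omega)
  have hs10 : 0 < s1 := by positivity
  have hs12 : s1 < s2 := by
    have e : ((3 : ℝ) / 4) ^ (k + 2 + 1) = (9 / 8) ^ (k + 2 + 1) * (2 / 3) ^ (k + 2 + 1) := by
      rw [← mul_pow]; norm_num
    have h1 : ((9 : ℝ) / 8) ^ 4 ≤ (9 / 8) ^ (k + 2 + 1) :=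
      pow_le_pow_right₀ (by norm_num) (by omega)
    have h2 : (0 : ℝ) < (2 / 3) ^ (k + 2 + 1) := by positivity
    rw [hs1, hs2, e]
    nlinarith
  have hlt : ∀ i j, i < j → j ≤ k + 2 → r i < r j := fun i j => lt_of_chain hr.mono
  have hle : ∀ i j, i ≤ j → j ≤ k + 2 → r i ≤ r j := by
    intro i j hij hj
    rcases hij.lt_or_eq with h | h
    · exact (hlt i j h hj).le
    · rw [h]
  have h3 : s2 < r 3 := by
    refine third_root (k + 1) (by omega) (a := r 1) (b := r 2) ?_ (hlt _ _ (by omega) (by omega))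
      (hlt _ _ (by omega) (by omega)) (hr.root _ (by omega) (by omega))
      (hr.root _ (by omega) (by omega)) (hr.root _ (by omega) (by omega))
    rw [← hr.zero]; exact hle _ _ (by omega) (by omega)
  have h4 : s2 < 1 - r (k - 1) := by
    have hs : ∀ i, 1 ≤ i → i ≤ k + 1 → (H (k + 1)).eval (1 - r i) = 0 := fun i h1 h2 => by
      rw [eval_H_symm, hr.root i h1 h2, mul_zero]
    refine third_root (k + 1) (by omega) (a := 1 - r (k + 1)) (b := 1 - r k) ?_ ?_ ?_
      (hs _ (by omega) (by omega)) (hs _ (by omega) (by omega)) (hs _ (by omega) (by omega))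
    · have := hle (k + 1) (k + 1 + 1) (by omega) (by omega)
      rw [hr.one] at this
      linarith
    · linarith [hlt k (k + 1) (by omega) (by omega)]
    · linarith [hlt (k - 1) k (by omega) (by omega)]
  have hmid : ∀ i, 3 ≤ i → i ≤ k - 1 → 1 < (-1) ^ i * (H (k + 2)).eval (r i) := by
    intro i h1 h2
    have h5 := hle 3 i h1 (by omega)
    have h6 := hle i (k - 1) h2 (by omega)
    have h7 := big_at_root (k + 1) (by omega) (r i) (by
      show s2 ≤ _; linarith) (by show s2 ≤ _; linarith) (hr.root i (by omega) (by omega))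
    obtain ⟨j, rfl⟩ : ∃ j, i = j + 1 := ⟨i - 1, by omega⟩
    have h8 := hq.sign (i := j + 1) (by omega) (hint j (by omega)).2 (hint (j + 1) (by omega)).1
    rw [show k + 1 + 1 = k + 2 from rfl] at h7 h8
    rcases neg_one_pow_eq_or ℝ (j + 1) with h | h <;> rw [h] at h8 ⊢
    · rw [abs_of_pos (by linarith)] at h7; linarith
    · rw [abs_of_neg (by linarith)] at h7; linarith
  set x : ℕ → ℝ := fun i => if i = 0 then 0 else if i = 1 then s1 else if i = 2 then s2
    else if i = k then 1 - s2 else if i = k + 1 then 1 - s1 else r i with hx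
  have x0 : x 0 = 0 := by simp [hx]
  have x1 : x 1 = s1 := by simp [hx]
  have x2 : x 2 = s2 := by simp [hx]
  have xk : x k = 1 - s2 := by
    simp only [hx]; rw [if_neg (by omega), if_neg (by omega), if_neg (by omega)]; simp
  have xk1 : x (k + 1) = 1 - s1 := by
    simp only [hx]
    rw [if_neg (by omega), if_neg (by omega), if_neg (by omega), if_neg (by omega)]; simp
  have xm : ∀ i, 3 ≤ i → i ≤ k - 1 → x i = r i := by
    intro i h1 h2
    simp only [hx]
    rw [if_neg (by omega), if_neg (by omega), if_neg (by omega), if_neg (by omega),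
      if_neg (by omega)]
  refine ⟨x, x0, fun i hi => ?_, by rw [xk1]; linarith, fun i h1 h2 => ?_⟩
  · by_cases c0 : i = 0
    · subst c0; rw [x0, x1]; exact hs10
    by_cases c1 : i = 1
    · subst c1; rw [x1, x2]; exact hs12
    by_cases c2 : i = 2
    · subst c2; rw [x2, xm 3 le_rfl (by omega)]; exact h3
    by_cases c3 : i = k
    · subst c3; rw [xk, xk1]; linarith
    by_cases c4 : i = k - 1
    · rw [xm i (by omega) (by omega), show i + 1 = k by omega, xk, c4]; linarith
    · rw [xm i (by omega) (by omega), xm (i + 1) (by omega) (by omega)]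
      exact hlt _ _ (by omega) (by omega)
  · by_cases c1 : i = 1
    · subst c1; rw [x1]; linarith
    by_cases c2 : i = 2
    · subst c2; rw [x2]; linarith
    by_cases c3 : i = k
    · subst c3
      rw [xk, eval_H_symm, ← mul_assoc, ← pow_add, show i + (i + 2) = 2 * (i + 1) by ring, pow_mul]
      simpa using b2
    by_cases c4 : i = k + 1
    · subst c4
      rw [xk1, eval_H_symm, ← mul_assoc, ← pow_add,
        show k + 1 + (k + 2) = 2 * (k + 1) + 1 by ring, pow_succ, pow_mul]
      simp only [even_two, Even.neg_pow, one_pow, one_mul]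
      linarith
    · rw [xm i (by omega) (by omega)]
      exact hmid i (by omega) (by omega)

lemma alt_small (k : ℕ) (h1 : 6 ≤ k + 3) (h2 : k + 3 ≤ 43) : Alt k := by
  obtain ⟨j, rfl⟩ : ∃ j, k = j + 3 := ⟨k - 3, by omega⟩
  have hc := List.all_eq_true.mp chk_all j (List.mem_range.mpr (by omega))
  simp only [chk, Bool.and_eq_true, List.all_eq_true, List.mem_range, decide_eq_true_eq] at hc
  obtain ⟨h3, h4⟩ := hc
  refine ⟨fun i => (pt j i : ℝ), by simp [pt], fun i hi => ?_, ?_, fun i hi1 hi2 => ?_⟩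
  · beta_reduce
    exact_mod_cast (h3 i (by omega)).1
  · beta_reduce
    exact_mod_cast h4
  · obtain ⟨i, rfl⟩ : ∃ k, i = k + 1 := ⟨i - 1, by omega⟩
    have := (h3 i (by omega)).2
    beta_reduce
    rw [eval_H_rat]
    exact_mod_cast this

lemma realRooted_mix (k : ℕ) (hA : Alt k) (p : ℝ[X]) (γ c : ℝ) (hγ : 0 < γ) (hc : |c| ≤ 1)
    (hd : p.natDegree ≤ k + 2)
    (hp : ∀ s : ℝ, s ≠ 1 → 2 * ((1 - s) ^ (k + 2) * p.eval (-s / (1 - s))) =
      γ * ((H (k + 2)).eval s + c)) : RealRooted p := by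
  obtain ⟨x, h0, hmono, h1, halt⟩ := hA
  classical
  set g : ℝ → ℝ := fun s => (H (k + 2)).eval s + c with hg
  have hgc : Continuous g := (H (k + 2)).continuous.add continuous_const
  have habs : ∀ i : ℕ, -1 ≤ (-1) ^ i * c := by
    intro i
    have := abs_le.1 hc
    rcases neg_one_pow_eq_or ℝ i with h | h <;> rw [h] <;> linarith
  have hpos : ∀ i, 1 ≤ i → i ≤ k + 1 → 0 < (-1) ^ i * g (x i) := by
    intro i hi1 hi2
    have := halt i hi1 hi2
    have := habs i
    simp only [hg]
    linarith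
  have hnn : ∀ i ≤ k + 1, 0 ≤ (-1) ^ i * g (x i) := by
    intro i hi
    rcases Nat.eq_zero_or_pos i with rfl | hi0
    · have := habs 0
      simp only [hg, h0, eval_H_zero]
      linarith
    · exact (hpos i hi0 hi).le
  have hz : ∀ i, ∃ z, i ≤ k → x i ≤ z ∧ z < x (i + 1) ∧ g z = 0 := by
    intro i
    by_cases hi : i ≤ k
    · have hc : ContinuousOn (fun s => (-1) ^ i * g s) (Set.Icc (x i) (x (i + 1))) :=
        (continuous_const.mul hgc).continuousOn
      have h2 := hpos (i + 1) (by omega) (by omega)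
      have h3 := hnn i (by omega)
      obtain ⟨z, hz1, hz2⟩ := intermediate_value_Ico' (hmono i hi).le hc
        (show (0 : ℝ) ∈ Set.Ioc _ _ from ⟨by rw [pow_succ] at h2; linarith, h3⟩)
      refine ⟨z, fun _ => ⟨hz1.1, hz1.2, ?_⟩⟩
      rcases mul_eq_zero.mp hz2 with h4 | h4
      · exact absurd h4 (by positivity)
      · exact h4
    · exact ⟨0, fun h => absurd h hi⟩
  choose z hz using hz
  have hxle : ∀ i ≤ k + 1, x i < 1 := by
    intro i hi
    rcases hi.lt_or_eq with h2 | h2
    · exact (lt_of_chain hmono h2 le_rfl).trans h1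
    · rw [h2]; exact h1
  have hz1 : ∀ i ≤ k, z i < 1 := fun i hi => (hz i hi).2.1.trans (hxle _ (by omega))
  have hzlt : ∀ i j, i < j → j ≤ k → z i < z j := by
    intro i j hij hj
    have h2 := (hz i (by omega)).2.1
    have h3 := (hz j hj).1
    have h4 : x (i + 1) ≤ x j := by
      rcases (show i + 1 ≤ j from hij).lt_or_eq with h5 | h5
      · exact (lt_of_chain hmono h5 (by omega)).le
      · rw [h5]
    linarith
  have hinj : Set.InjOn (fun i => -z i / (1 - z i)) (range (k + 1) : Finset ℕ) := by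
    intro a ha b hb hab
    simp only [coe_range, Set.mem_Iio] at ha hb
    have ha1 := hz1 a (by omega)
    have hb1 := hz1 b (by omega)
    have hzz : z a = z b := by
      simp only at hab
      rw [div_eq_div_iff (by linarith) (by linarith)] at hab
      linarith
    rcases lt_trichotomy a b with h3 | h3 | h3
    · exact absurd hzz (hzlt a b h3 (by omega)).ne
    · exact h3
    · exact absurd hzz (hzlt b a h3 (by omega)).ne'
  refine realRooted_of_roots _ ?_ ((range (k + 1)).image fun i => -z i / (1 - z i)) ?_ ?_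
  · intro hzero
    have h2 := hp (x 1) (hxle 1 (by omega)).ne
    have h3 := hpos 1 le_rfl (by omega)
    rw [hzero] at h2
    simp only [eval_zero, mul_zero] at h2
    have h4 := (mul_eq_zero.1 h2.symm).resolve_left hγ.ne'
    simp only [hg, h4] at h3
    simp at h3
  · intro t ht
    obtain ⟨i, hi, rfl⟩ := mem_image.mp ht
    rw [mem_range] at hi
    have h2 := hp (z i) (hz1 i (by omega)).ne
    have h3 := (hz i (by omega)).2.2
    simp only [hg] at h3
    rw [h3] at h2
    have h4 : (1 - z i) ^ (k + 2) ≠ 0 := pow_ne_zero _ (by linarith [hz1 i (by omega)])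
    simpa [h4] using h2
  · rw [card_image_of_injOn hinj, card_range]
    exact hd

lemma mix_six (n : ℕ) (hn : 6 ≤ n) (a b : ℝ) (ha : 0 ≤ a) (hb : 0 ≤ b) (hab : 0 < a + b) :
    RealRooted (C a * excPoly n 1 + C b * excPoly n (-1)) := by
  obtain ⟨k, rfl⟩ : ∃ k, n = k + 3 := ⟨n - 3, by omega⟩
  have hA : Alt k := by
    rcases Nat.lt_or_ge (k + 3) 44 with h | h
    · exact alt_small k hn (by omega)
    · exact alt_large k h
  refine realRooted_mix k hA _ (a + b) ((a - b) / (a + b)) hab ?_ ?_ fun s hs => ?_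
  · rw [abs_div, abs_of_pos hab, div_le_one hab, abs_le]
    constructor <;> linarith
  · exact (natDegree_add_le _ _).trans (max_le
      ((natDegree_C_mul_le _ _).trans (natDegree_excPoly_le (k + 2) _))
      ((natDegree_C_mul_le _ _).trans (natDegree_excPoly_le (k + 2) _)))
  · have h1 := eval_excPoly (k + 2) 1 s hs
    have h2 := eval_excPoly (k + 2) (-1) s hs
    simp only [Units.val_one, Int.cast_one, Units.val_neg, Int.cast_neg] at h1 h2
    have h3 : (a + b) * ((a - b) / (a + b)) = a - b := mul_div_cancel₀ _ hab.ne'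
    simp only [eval_add, eval_mul, eval_C]
    linear_combination a * h1 + b * h2 - h3

lemma real_of_quad {s : ℝ} (hs : s ≤ -2) {z : ℂ} (h : z ^ 2 - s * z + 1 = 0) : z.im = 0 := by
  have h1 := congrArg Complex.re h
  have h2 := congrArg Complex.im h
  simp [sq] at h1 h2
  by_contra h3
  have h4 : 2 * z.re = s := mul_right_cancel₀ h3 (by linarith)
  have h5 := mul_self_pos.2 h3
  rw [← h4] at h1 hs
  nlinarith

lemma aeval_five (a b : ℝ) (z : ℂ) : aeval z (C a * excPoly 5 1 + C b * excPoly 5 (-1)) =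
    a * (z ^ 4 + 11 * z ^ 3 + 36 * z ^ 2 + 11 * z + 1) + b * (15 * z * (1 + z) ^ 2) := by
  rw [excPoly_five_pos, excPoly_five_neg]
  simp [map_ofNat]

lemma mix_five (a b : ℝ) (ha : 0 ≤ a) (hb : 0 ≤ b) (hab : 0 < a + b) :
    RealRooted (C a * excPoly 5 1 + C b * excPoly 5 (-1)) ↔ a ≤ 15 * b := by
  constructor
  · intro h
    by_contra h1
    have h2 : 15 * b < a := not_le.1 h1
    have a0 : 0 < a := by linarith
    have hdeg : (C (a : ℂ) * X ^ 4 + C (11 * a + 15 * b : ℂ) * X ^ 3 +
        C (36 * a + 30 * b : ℂ) * X ^ 2 + C (11 * a + 15 * b : ℂ) * X + C (a : ℂ) :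
          ℂ[X]).degree = 4 := by
      compute_degree!
      exact a0.ne'
    obtain ⟨z, hz⟩ := Complex.exists_root (by rw [hdeg]; norm_num)
    simp only [IsRoot, eval_add, eval_mul, eval_C, eval_pow, eval_X] at hz
    have h3 := h z (by rw [aeval_five]; linear_combination hz)
    have h4 : z = (z.re : ℂ) := Complex.ext rfl (by simpa using h3)
    generalize z.re = t at h4
    subst h4
    have h5 : a * t ^ 4 + (11 * a + 15 * b) * t ^ 3 + (36 * a + 30 * b) * t ^ 2 +
        (11 * a + 15 * b) * t + a = 0 := by exact_mod_cast hz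
    have h6 : (2 * a * (t ^ 2 + 1) + (11 * a + 15 * b) * t) ^ 2 +
        15 * (a - 15 * b) * (a + b) * t ^ 2 = 0 := by linear_combination 4 * a * h5
    have h7 : 0 < 15 * (a - 15 * b) * (a + b) := by
      have : 0 < a - 15 * b := by linarith
      positivity
    have h8 : t = 0 := by
      by_contra h8
      have := mul_pos h7 (sq_pos_of_ne_zero h8)
      nlinarith [sq_nonneg (2 * a * (t ^ 2 + 1) + (11 * a + 15 * b) * t)]
    subst h8
    simp at h5
    linarith
  · intro h z hz
    rw [aeval_five] at hz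
    rcases ha.eq_or_lt with rfl | a0
    · have b0 : (b : ℂ) ≠ 0 := by exact_mod_cast (show b ≠ 0 by linarith)
      have : z * (z ^ 2 - ((-2 : ℝ) : ℂ) * z + 1) = 0 := by
        refine mul_left_cancel₀ (mul_ne_zero b0 (show (15 : ℂ) ≠ 0 by norm_num)) ?_
        push_cast at hz ⊢
        linear_combination hz
      rcases mul_eq_zero.1 this with h1 | h1
      · simp [h1]
      · exact real_of_quad le_rfl h1
    · have hD : 0 ≤ 15 * (15 * b - a) * (a + b) := by
        have : 0 ≤ 15 * b - a := by linarith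
        positivity
      obtain ⟨d, d0, hd⟩ : ∃ d : ℝ, 0 ≤ d ∧ d ^ 2 = 15 * (15 * b - a) * (a + b) :=
        ⟨_, Real.sqrt_nonneg _, Real.sq_sqrt hD⟩
      have d1 : d ≤ 7 * a + 15 * b := by
        refine (abs_le_of_sq_le_sq' ?_ (by positivity)).2
        nlinarith
      have s1 : (-(11 * a + 15 * b) + d) / (2 * a) ≤ -2 := by
        rw [div_le_iff₀ (by positivity)]; linarith
      have s2 : (-(11 * a + 15 * b) - d) / (2 * a) ≤ -2 := by
        rw [div_le_iff₀ (by positivity)]; linarith
      have a1 : (a : ℂ) ≠ 0 := by exact_mod_cast a0.ne'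
      have hd' : (d : ℂ) ^ 2 = 15 * (15 * b - a) * (a + b) := by exact_mod_cast hd
      have : (z ^ 2 - (((-(11 * a + 15 * b) + d) / (2 * a) : ℝ) : ℂ) * z + 1) *
          (z ^ 2 - (((-(11 * a + 15 * b) - d) / (2 * a) : ℝ) : ℂ) * z + 1) = 0 := by
        push_cast
        field_simp
        linear_combination 4 * a * hz - z ^ 2 * hd'
      rcases mul_eq_zero.1 this with h1 | h1
      · exact real_of_quad s1 h1
      · exact real_of_quad s2 h1

end Pool.Agent.Lib.MP_b94b02_co
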