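import Pool.Agent.Lib.MP_b94b02_co.HPoly

set_option autoImplicit false

namespace Pool.Agent.Lib.MP_b94b02_co

open Polynomial Finset

lemma rolle_poly (p : ℝ[X]) {a b : ℝ} (hab : a < b) (ha : p.eval a = 0) (hb : p.eval b = 0) :
    ∃ x, a < x ∧ x < b ∧ (derivative p).eval x = 0 := by
  obtain ⟨x, hx, hx'⟩ := exists_hasDerivAt_eq_zero (f := fun x => p.eval x)
    (f' := fun x => (derivative p).eval x) hab p.continuousOn (ha.trans hb.symm)
    (fun x _ => p.hasDerivAt x)
  exact ⟨x, hx.1, hx.2, hx'⟩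

lemma lt_of_chain {r : ℕ → ℝ} {m : ℕ} (h : ∀ i ≤ m, r i < r (i + 1)) {i j : ℕ} (hij : i < j)
    (hj : j ≤ m + 1) : r i < r j := by
  induction j with
  | zero => omega
  | succ j ih =>
    rcases Nat.lt_succ_iff_lt_or_eq.mp hij with h1 | h1
    · exact (ih h1 (by omega)).trans (h j (by omega))
    · subst h1; exact h i (by omega)

/-- `r 1, ..., r m` are the roots of `H m`, in increasing order inside `(0, 1)`. -/
structure RootSeq (m : ℕ) (r : ℕ → ℝ) : Prop where
  zero : r 0 = 0
  one : r (m + 1) = 1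
  mono : ∀ i ≤ m, r i < r (i + 1)
  root : ∀ i, 1 ≤ i → i ≤ m → (H m).eval (r i) = 0

lemma RootSeq.step {m : ℕ} {r : ℕ → ℝ} (h : RootSeq m r) :
    ∃ q : ℕ → ℝ, RootSeq (m + 1) q ∧ ∀ i ≤ m, r i < q (i + 1) ∧ q (i + 1) < r (i + 1) := by
  have hG : ∀ i ≤ m + 1, (X * (1 - X) * H m).eval (r i) = 0 := by
    intro i hi
    simp only [eval_mul, eval_X, eval_sub, eval_one]
    rcases Nat.eq_zero_or_pos i with rfl | h0
    · simp [h.zero]
    · rcases Nat.lt_or_ge m i with h1 | h1
      · have : i = m + 1 := by omega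
        simp [this, h.one]
      · simp [h.root i h0 h1]
  have : ∀ i, ∃ x, i ≤ m → r i < x ∧ x < r (i + 1) ∧ (H (m + 1)).eval x = 0 := by
    intro i
    by_cases hi : i ≤ m
    · obtain ⟨x, hx⟩ := rolle_poly _ (h.mono i hi) (hG i (by omega)) (hG (i + 1) (by omega))
      exact ⟨x, fun _ => hx⟩
    · exact ⟨0, fun h => absurd h hi⟩
  choose x hx using this
  refine ⟨fun i => if i = 0 then 0 else if i = m + 2 then 1 else x (i - 1), ⟨?_, ?_, ?_, ?_⟩, ?_⟩
  · simp
  · simp
  · intro i hi
    rcases Nat.eq_zero_or_pos i with rfl | h0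
    · have := (hx 0 (Nat.zero_le _)).1
      rw [h.zero] at this
      simpa using this
    · obtain ⟨j, rfl⟩ : ∃ j, i = j + 1 := ⟨i - 1, by omega⟩
      have hj := hx j (by omega)
      by_cases h1 : j = m
      · subst h1
        have := hj.2.1
        rw [h.one] at this
        simpa using this
      · have hj' := hx (j + 1) (by omega)
        have e1 : ¬ (j + 1 = m + 2) := by omega
        have e2 : ¬ (j + 1 + 1 = m + 2) := by omega
        simp only [Nat.succ_ne_zero, if_false, e1, e2, Nat.add_sub_cancel]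
        exact hj.2.1.trans hj'.1
  · intro i h1 h2
    obtain ⟨j, rfl⟩ : ∃ j, i = j + 1 := ⟨i - 1, by omega⟩
    have e1 : ¬ (j + 1 = m + 2) := by omega
    simp only [Nat.succ_ne_zero, if_false, e1, Nat.add_sub_cancel]
    exact (hx j (by omega)).2.2
  · intro i hi
    have e1 : ¬ (i + 1 = m + 2) := by omega
    simp only [Nat.succ_ne_zero, if_false, e1, Nat.add_sub_cancel]
    exact ⟨(hx i hi).1, (hx i hi).2.1⟩

lemma exists_rootSeq (m : ℕ) : ∃ r, RootSeq m r := by
  induction m with
  | zero => exact ⟨fun i => i, by simp, by simp, by simp, fun i h1 h2 => by omega⟩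
  | succ m ih =>
    obtain ⟨r, hr⟩ := ih
    obtain ⟨q, hq, -⟩ := hr.step
    exact ⟨q, hq⟩

lemma RootSeq.sign {m : ℕ} {q : ℕ → ℝ} (h : RootSeq m q) {i : ℕ} (hi : i ≤ m) {x : ℝ}
    (h1 : q i < x) (h2 : x < q (i + 1)) : 0 < (-1) ^ i * (H m).eval x := by
  classical
  have hinj : Set.InjOn q (Icc 1 m : Finset ℕ) := by
    intro a ha b hb hab
    simp only [coe_Icc, Set.mem_Icc] at ha hb
    rcases lt_trichotomy a b with h3 | h3 | h3
    · exact absurd hab (lt_of_chain h.mono h3 (by omega)).ne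
    · exact h3
    · exact absurd hab (lt_of_chain h.mono h3 (by omega)).ne'
  have hcard : ((Icc 1 m).image q).card = m := by
    rw [card_image_of_injOn hinj]; simp
  have hroots : (H m).roots = ((Icc 1 m).image q).val := by
    refine roots_eq_of_natDegree_le_card_of_ne_zero ?_ (by rw [hcard]; exact natDegree_H_le m)
      (H_ne_zero m)
    intro y hy
    obtain ⟨j, hj, rfl⟩ := mem_image.mp hy
    rw [mem_Icc] at hj
    exact h.root j hj.1 hj.2
  have hc : (H m).roots.card = (H m).natDegree := by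
    refine le_antisymm (card_roots' _) ?_
    rw [hroots]
    exact (natDegree_H_le m).trans hcard.ge
  have hfac := C_leadingCoeff_mul_prod_multiset_X_sub_C hc
  have hev : ∀ y, (H m).eval y = (H m).leadingCoeff * ∏ j ∈ Icc 1 m, (y - q j) := by
    intro y
    conv_lhs => rw [← hfac]
    rw [eval_mul, eval_C, hroots, ← prod_eq_multiset_prod, prod_image hinj, eval_prod]
    simp
  have hqpos : ∀ j ∈ Icc 1 m, 0 < q j := by
    intro j hj
    rw [mem_Icc] at hj
    rw [← h.zero]
    exact lt_of_chain h.mono (by omega) (by omega)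
  have h0 := hev 0
  rw [eval_H_zero] at h0
  have hsgn : ((-1 : ℝ)) ^ i = ∏ j ∈ Icc 1 m, (if j ≤ i then (-1 : ℝ) else 1) := by
    rw [prod_ite, prod_const, prod_const, one_pow, mul_one]
    congr 1
    have : (Icc 1 m).filter (fun j => j ≤ i) = Icc 1 i := by
      ext j; simp only [mem_filter, mem_Icc]; omega
    rw [this]; simp
  have hP : 0 < ∏ j ∈ Icc 1 m, ((if j ≤ i then (-1 : ℝ) else 1) * (x - q j) * (0 - q j)) := by
    refine prod_pos fun j hj => ?_
    have h3 := hqpos j hj
    rw [mem_Icc] at hj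
    split_ifs with h4
    · have : q j ≤ q i := by
        rcases h4.lt_or_eq with h5 | h5
        · exact (lt_of_chain h.mono h5 (by omega)).le
        · rw [h5]
      nlinarith
    · have : q (i + 1) ≤ q j := by
        rcases (show i + 1 ≤ j by omega).lt_or_eq with h5 | h5
        · exact (lt_of_chain h.mono h5 (by omega)).le
        · rw [h5]
      nlinarith
  rw [prod_mul_distrib, prod_mul_distrib, ← hsgn] at hP
  rw [hev x]
  set A := ∏ j ∈ Icc 1 m, (x - q j)
  set B := ∏ j ∈ Icc 1 m, (0 - q j)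
  set L := (H m).leadingCoeff
  have hL : 0 < L ^ 2 := by
    have : L ≠ 0 := by
      intro h5; rw [h5] at h0; simp at h0
    positivity
  have : (-1) ^ i * (L * A) = L ^ 2 * ((-1) ^ i * A * B) := by
    linear_combination ((-1) ^ i * (L * A)) * h0
  rw [this]
  positivity

lemma third_root (m : ℕ) (hm : 2 ≤ m) {a b d : ℝ} (h0 : 0 ≤ a) (hab : a < b) (hbd : b < d)
    (ha : (H m).eval a = 0) (hb : (H m).eval b = 0) (hd : (H m).eval d = 0) :
    (3 / 4) ^ (m + 2) / 3 < d := by
  by_contra hle
  push Not at hle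
  obtain ⟨x, hx1, hx2, hx⟩ := rolle_poly _ hab ha hb
  obtain ⟨y, hy1, hy2, hy⟩ := rolle_poly _ hbd hb hd
  obtain ⟨z, hz1, hz2, hz⟩ := rolle_poly _ (hx2.trans hy1) hx hy
  have := second_deriv_pos m hm z (by linarith) (by linarith)
  linarith

lemma realRooted_of_roots (p : ℝ[X]) (hp : p ≠ 0) (S : Finset ℝ) (hS : ∀ x ∈ S, p.eval x = 0)
    (hd : p.natDegree ≤ S.card + 1) : RealRooted p := by
  have h1 : S.card ≤ p.roots.card := by
    refine Multiset.card_le_card (Finset.val_le_iff_val_subset.mpr fun x hx => ?_)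
    exact (mem_roots hp).mpr (hS x hx)
  obtain ⟨q, hq1, hq2, hq3⟩ := exists_prod_multiset_X_sub_C_mul p
  have hq0 : q ≠ 0 := by
    rintro rfl
    rw [mul_zero] at hq1
    exact hp hq1.symm
  have h2 : q.natDegree = 0 := by
    by_contra hne
    have h3 : q.natDegree = 1 := by omega
    obtain ⟨x, hx⟩ := exists_root_of_degree_eq_one ((degree_eq_iff_natDegree_eq hq0).mpr h3)
    have : x ∈ q.roots := (mem_roots hq0).mpr hx
    rw [hq3] at this
    simp at this
  have hs : p.Splits := splits_iff_card_roots.mpr (by omega)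
  intro z hz
  have : z ∈ (algebraMap ℝ ℂ).range := by
    refine hs.mem_range_of_isRoot hp ?_
    rwa [IsRoot, eval_map_algebraMap]
  obtain ⟨x, rfl⟩ := this
  simp

/-- Alternation points give real-rootedness of both polynomials. -/
lemma realRooted_of_alt (k : ℕ) (x : ℕ → ℝ) (h0 : x 0 = 0) (hmono : ∀ i ≤ k, x i < x (i + 1))
    (h1 : x (k + 1) < 1) (halt : ∀ i, 1 ≤ i → i ≤ k + 1 → 1 < (-1) ^ i * (H (k + 2)).eval (x i))
    (ε : ℤˣ) : RealRooted (excPoly (k + 3) ε) := by
  classical
  set g : ℝ → ℝ := fun s => (H (k + 2)).eval s + ((ε : ℤ) : ℝ) with hg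
  have hgc : Continuous g := (H (k + 2)).continuous.add continuous_const
  have habs : ∀ i : ℕ, -1 ≤ (-1) ^ i * ((ε : ℤ) : ℝ) := by
    intro i
    rcases Int.units_eq_one_or ε with rfl | rfl <;> rcases neg_one_pow_eq_or ℝ i with h | h <;>
      simp [h]
  have hpos : ∀ i, 1 ≤ i → i ≤ k + 1 → 0 < (-1) ^ i * g (x i) := by
    intro i hi1 hi2
    have := halt i hi1 hi2
    have := habs i
    simp only [hg]
    linarith
  have hnn : ∀ i ≤ k + 1, 0 ≤ (-1) ^ i * g (x i) := by
    intro i hi
    rcases Nat.eq_zero_or_pos i with rfl | hi0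
    · have := habs 0
      simp only [hg, h0, eval_H_zero]
      linarith
    · exact (hpos i hi0 hi).le
  have hz : ∀ i, ∃ z, i ≤ k → x i ≤ z ∧ z < x (i + 1) ∧ g z = 0 := by
    intro i
    by_cases hi : i ≤ k
    · have hc : ContinuousOn (fun s => (-1) ^ i * g s) (Set.Icc (x i) (x (i + 1))) :=
        (continuous_const.mul hgc).continuousOn
      have h2 := hpos (i + 1) (by omega) (by omega)
      have h3 := hnn i (by omega)
      obtain ⟨z, hz1, hz2⟩ := intermediate_value_Ico' (hmono i hi).le hc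
        (show (0 : ℝ) ∈ Set.Ioc _ _ from ⟨by rw [pow_succ] at h2; linarith, h3⟩)
      refine ⟨z, fun _ => ⟨hz1.1, hz1.2, ?_⟩⟩
      rcases mul_eq_zero.mp hz2 with h4 | h4
      · exact absurd h4 (by positivity)
      · exact h4
    · exact ⟨0, fun h => absurd h hi⟩
  choose z hz using hz
  have hxle : ∀ i ≤ k + 1, x i < 1 := by
    intro i hi
    rcases hi.lt_or_eq with h2 | h2
    · exact (lt_of_chain hmono h2 le_rfl).trans h1
    · rw [h2]; exact h1
  have hz1 : ∀ i ≤ k, z i < 1 := fun i hi => (hz i hi).2.1.trans (hxle _ (by omega))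
  have hzlt : ∀ i j, i < j → j ≤ k → z i < z j := by
    intro i j hij hj
    have h2 := (hz i (by omega)).2.1
    have h3 := (hz j hj).1
    have h4 : x (i + 1) ≤ x j := by
      rcases (show i + 1 ≤ j from hij).lt_or_eq with h5 | h5
      · exact (lt_of_chain hmono h5 (by omega)).le
      · rw [h5]
    linarith
  have hinj : Set.InjOn (fun i => -z i / (1 - z i)) (range (k + 1) : Finset ℕ) := by
    intro a ha b hb hab
    simp only [coe_range, Set.mem_Iio] at ha hb
    have ha1 := hz1 a (by omega)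
    have hb1 := hz1 b (by omega)
    have hzz : z a = z b := by
      simp only at hab
      rw [div_eq_div_iff (by linarith) (by linarith)] at hab
      linarith
    rcases lt_trichotomy a b with h3 | h3 | h3
    · exact absurd hzz (hzlt a b h3 (by omega)).ne
    · exact h3
    · exact absurd hzz (hzlt b a h3 (by omega)).ne'
  refine realRooted_of_roots _ ?_ ((range (k + 1)).image fun i => -z i / (1 - z i)) ?_ ?_
  · intro hzero
    have h2 := eval_excPoly (k + 2) ε (x 1) (hxle 1 (by omega)).ne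
    have h3 := hpos 1 le_rfl (by omega)
    rw [hzero] at h2
    simp only [hg, ← h2] at h3
    simp at h3
  · intro t ht
    obtain ⟨i, hi, rfl⟩ := mem_image.mp ht
    rw [mem_range] at hi
    have h2 := eval_excPoly (k + 2) ε (z i) (hz1 i (by omega)).ne
    have h3 := (hz i (by omega)).2.2
    simp only [hg] at h3
    rw [h3] at h2
    have h4 : (1 - z i) ^ (k + 2) ≠ 0 := pow_ne_zero _ (by linarith [hz1 i (by omega)])
    simpa [h4] using h2
  · rw [card_image_of_injOn hinj, card_range]
    exact natDegree_excPoly_le (k + 2) ε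

end Pool.Agent.Lib.MP_b94b02_co
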