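import Pool.Agent.Lib.MP_b94b02_co.Roots

set_option autoImplicit false

namespace Pool.Agent.Lib.MP_b94b02_co

open Polynomial Finset

lemma mono_of_deriv {P Q : ℝ → ℝ} (hd : ∀ a, HasDerivAt P (Q a) a) {u v : ℝ}
    (h : ∀ a ∈ Set.Ioo u v, 0 ≤ Q a) {a b : ℝ} (ha : u ≤ a) (hab : a ≤ b) (hb : b ≤ v) :
    P a ≤ P b := by
  rcases hab.lt_or_eq with h1 | h1
  · obtain ⟨x, hx, hx'⟩ := exists_hasDerivAt_eq_slope P Q h1
      (fun y _ => (hd y).continuousAt.continuousWithinAt) (fun y _ => hd y)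
    have h2 := h x ⟨by linarith [hx.1], by linarith [hx.2]⟩
    rw [hx', le_div_iff₀ (by linarith)] at h2
    linarith
  · rw [h1]

lemma anti_of_deriv {P Q : ℝ → ℝ} (hd : ∀ a, HasDerivAt P (Q a) a) {u v : ℝ}
    (h : ∀ a ∈ Set.Ioo u v, Q a ≤ 0) {a b : ℝ} (ha : u ≤ a) (hab : a ≤ b) (hb : b ≤ v) :
    P b ≤ P a := by
  have := mono_of_deriv (P := fun x => -P x) (Q := fun x => -Q x) (fun a => (hd a).neg)
    (fun a ha => neg_nonneg.mpr (h a ha)) ha hab hb
  linarith

/-- At most one change of sign on the unit interval. -/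
def OneChange (f : ℝ → ℝ) : Prop :=
  ∃ σ : ℝ, (σ = 1 ∨ σ = -1) ∧ ∃ u ∈ Set.Icc (0 : ℝ) 1,
    (∀ a ∈ Set.Ioo 0 u, σ * f a ≤ 0) ∧ (∀ a ∈ Set.Ioo u 1, 0 ≤ σ * f a)

lemma vstep {lam : ℝ} (hlam : 0 < lam) {P Q : ℝ → ℝ} (hd : ∀ a, HasDerivAt P (Q a) a)
    (hP : P 0 = -lam * P 1) {u : ℝ} (hu : u ∈ Set.Icc (0 : ℝ) 1)
    (h1 : ∀ a ∈ Set.Ioo 0 u, Q a ≤ 0) (h2 : ∀ a ∈ Set.Ioo u 1, 0 ≤ Q a) :
    OneChange P ∧ (P 1 = 0 → ∀ a ∈ Set.Icc (0 : ℝ) 1, P a ≤ 0) := by
  have hcont : Continuous P := continuous_iff_continuousAt.mpr fun a => (hd a).continuousAt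
  have hA : ∀ a b, 0 ≤ a → a ≤ b → b ≤ u → P b ≤ P a := fun a b => anti_of_deriv hd h1
  have hM : ∀ a b, u ≤ a → a ≤ b → b ≤ 1 → P a ≤ P b := fun a b => mono_of_deriv hd h2
  constructor
  · rcases le_total (P 1) 0 with h | h
    · have h0 : 0 ≤ P 0 := by rw [hP]; nlinarith
      have h3 : P u ≤ 0 := (hM u 1 le_rfl hu.2 le_rfl).trans h
      obtain ⟨w, hw, hw0⟩ := intermediate_value_Icc' hu.1 hcont.continuousOn
        (show (0 : ℝ) ∈ Set.Icc (P u) (P 0) from ⟨h3, h0⟩)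
      refine ⟨-1, Or.inr rfl, w, ⟨hw.1, hw.2.trans hu.2⟩, fun a ha => ?_, fun a ha => ?_⟩
      · have := hA a w ha.1.le ha.2.le hw.2
        linarith
      · rcases le_total a u with h4 | h4
        · have := hA w a hw.1 ha.1.le h4
          linarith
        · have := hM a 1 h4 ha.2.le le_rfl
          linarith
    · have h0 : P 0 ≤ 0 := by rw [hP]; nlinarith
      have h3 : P u ≤ 0 := (hA 0 u le_rfl hu.1 le_rfl).trans h0
      obtain ⟨w, hw, hw0⟩ := intermediate_value_Icc hu.2 hcont.continuousOn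
        (show (0 : ℝ) ∈ Set.Icc (P u) (P 1) from ⟨h3, h⟩)
      refine ⟨1, Or.inl rfl, w, ⟨hu.1.trans hw.1, hw.2⟩, fun a ha => ?_, fun a ha => ?_⟩
      · rcases le_total a u with h4 | h4
        · have := hA 0 a le_rfl ha.1.le h4
          linarith
        · have := hM a w h4 ha.2.le hw.2
          linarith
      · have := hM w a hw.1 ha.1.le ha.2.le
        linarith
  · intro h a ha
    have h0 : P 0 = 0 := by rw [hP, h, mul_zero]
    rcases le_total a u with h4 | h4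
    · have := hA 0 a le_rfl ha.1 h4
      linarith
    · have := hM a 1 h4 ha.2 le_rfl
      linarith

section abstract

variable {lam c0 : ℝ} {e : ℕ → ℝ → ℝ}

lemma vstep' (hlam : 0 < lam) {P Q : ℝ → ℝ} (hd : ∀ a, HasDerivAt P (Q a) a)
    (hP : P 0 = -lam * P 1) (hQ : OneChange Q) :
    OneChange P ∧ (P 1 = 0 → ∃ σ : ℝ, (σ = 1 ∨ σ = -1) ∧
      ∀ a ∈ Set.Icc (0 : ℝ) 1, σ * P a ≤ 0) := by
  obtain ⟨σ, hσ, u, hu, h1, h2⟩ := hQ
  obtain ⟨⟨τ, hτ, w, hw, h3, h4⟩, h5⟩ := vstep hlam (P := fun a => σ * P a)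
    (Q := fun a => σ * Q a) (fun a => (hd a).const_mul σ) (by simp only [hP]; ring) hu h1 h2
  refine ⟨⟨τ * σ, ?_, w, hw, fun a ha => ?_, fun a ha => ?_⟩, fun h => ⟨σ, hσ, h5 (by simp [h])⟩⟩
  · rcases hσ with rfl | rfl <;> rcases hτ with rfl | rfl <;> simp
  · rw [mul_assoc]; exact h3 a ha
  · rw [mul_assoc]; exact h4 a ha

lemma oneChange_all (hlam : 0 < lam) (hc : 0 ≤ c0) (h0 : ∀ a, e 0 a = c0)
    (hd : ∀ n a, HasDerivAt (e (n + 1)) (e n a) a)
    (hper : ∀ n, e (n + 1) 0 = -lam * e (n + 1) 1) (n : ℕ) : OneChange (e n) := by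
  induction n with
  | zero =>
    exact ⟨1, Or.inl rfl, 0, by simp, fun a ha => absurd (ha.1.trans ha.2) (lt_irrefl _),
      fun a _ => by simpa [h0] using hc⟩
  | succ n ih => exact (vstep' hlam (hd n) (hper n) ih).1

lemma abs_le_end (hlam : 0 < lam) (hlam1 : lam ≤ 1) (hc : 0 ≤ c0) (h0 : ∀ a, e 0 a = c0)
    (hd : ∀ n a, HasDerivAt (e (n + 1)) (e n a) a)
    (hper : ∀ n, e (n + 1) 0 = -lam * e (n + 1) 1) (n : ℕ) (hz : e (n + 1) 1 = 0) :
    ∀ a ∈ Set.Icc (0 : ℝ) 1, |e (n + 2) a| ≤ |e (n + 2) 1| := by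
  obtain ⟨σ, hσ, h1⟩ := (vstep' hlam (hd n) (hper n) (oneChange_all hlam hc h0 hd hper n)).2 hz
  intro a ha
  have hA : ∀ a b, 0 ≤ a → a ≤ b → b ≤ 1 → σ * e (n + 2) b ≤ σ * e (n + 2) a := fun a b =>
    anti_of_deriv (P := fun a => σ * e (n + 2) a) (Q := fun a => σ * e (n + 1) a)
      (fun a => (hd (n + 1) a).const_mul σ) (fun a ha => h1 a ⟨ha.1.le, ha.2.le⟩)
  have h2 := hA 0 a le_rfl ha.1 ha.2
  have h3 := hA a 1 ha.1 ha.2 le_rfl
  rw [hper (n + 1)] at h2
  have h4 := le_abs_self (e (n + 2) 1)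
  have h5 := neg_abs_le (e (n + 2) 1)
  have h6 := abs_nonneg (e (n + 2) 1)
  rw [abs_le]
  rcases hσ with rfl | rfl <;> constructor <;> nlinarith

/-- An explicit antiderivative of `exp (μ a) * e n a`. -/
noncomputable def K (μ : ℂ) (e : ℕ → ℝ → ℝ) : ℕ → ℝ → ℂ
  | 0 => fun a => Complex.exp (μ * a) * (e 0 0 : ℝ) / μ
  | n + 1 => fun a => (Complex.exp (μ * a) * (e (n + 1) a : ℝ) - K μ e n a) / μ

lemma hasDerivAt_expmul (μ : ℂ) (a : ℝ) :
    HasDerivAt (fun a : ℝ => Complex.exp (μ * a)) (Complex.exp (μ * a) * μ) a := by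
  have h1 : HasDerivAt (fun a : ℝ => μ * (a : ℂ)) μ a := by
    simpa using (Complex.ofRealCLM.hasDerivAt (x := a)).const_mul μ
  exact h1.cexp

lemma hasDerivAt_K {μ : ℂ} (hμ : μ ≠ 0) (h0 : ∀ a, e 0 a = c0)
    (hd : ∀ n a, HasDerivAt (e (n + 1)) (e n a) a) (n : ℕ) (a : ℝ) :
    HasDerivAt (K μ e n) (Complex.exp (μ * a) * (e n a : ℝ)) a := by
  induction n with
  | zero =>
    have := ((hasDerivAt_expmul μ a).mul_const ((e 0 0 : ℝ) : ℂ)).div_const μ
    refine this.congr_deriv ?_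
    rw [h0, h0]
    field_simp
  | succ n ih =>
    have h1 : HasDerivAt (fun a : ℝ => ((e (n + 1) a : ℝ) : ℂ)) ((e n a : ℝ) : ℂ) a :=
      (hd n a).ofReal_comp
    have := (((hasDerivAt_expmul μ a).mul h1).sub ih).div_const μ
    refine this.congr_deriv ?_
    field_simp
    ring

lemma K_diff {μ : ℂ} (hμ : μ ≠ 0) (hexp : Complex.exp μ = -(lam : ℂ)) (h0 : ∀ a, e 0 a = c0)
    (hper : ∀ n, e (n + 1) 0 = -lam * e (n + 1) 1) (n : ℕ) :
    K μ e n 1 - K μ e n 0 = (-1) ^ (n + 1) * (c0 * (1 + lam) : ℝ) / μ ^ (n + 1) := by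
  induction n with
  | zero =>
    simp only [K, h0]
    push_cast
    rw [mul_one, mul_zero, hexp, Complex.exp_zero]
    field_simp
    ring
  | succ n ih =>
    simp only [K]
    rw [hper n, ← sub_div]
    push_cast at ih ⊢
    rw [mul_one, mul_zero, hexp, Complex.exp_zero]
    have : -(lam : ℂ) * (e (n + 1) 1 : ℝ) - K μ e n 1 - (1 * (-(lam : ℂ) * (e (n + 1) 1 : ℝ)) - K μ e n 0)
        = -(K μ e n 1 - K μ e n 0) := by ring
    rw [this, ih]
    field_simp
    ring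

lemma fourier_bound (hlam : 0 < lam) (hlam1 : lam ≤ 1) (hc : 0 ≤ c0) (h0 : ∀ a, e 0 a = c0)
    (hd : ∀ n a, HasDerivAt (e (n + 1)) (e n a) a)
    (hper : ∀ n, e (n + 1) 0 = -lam * e (n + 1) 1) (n : ℕ) (hz : e (n + 1) 1 = 0)
    (R : ℝ) (hR0 : 0 < R) (hR : Real.log lam ^ 2 + Real.pi ^ 2 ≤ R ^ 2) :
    c0 * (1 + lam) / R ^ (n + 3) ≤ |e (n + 2) 1| := by
  set μ : ℂ := (Real.log lam : ℝ) + (Real.pi : ℝ) * Complex.I with hμ
  have hμ0 : μ ≠ 0 := by
    intro h
    have := congrArg Complex.im h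
    simp [hμ] at this
  have hexp : Complex.exp μ = -(lam : ℂ) := by
    rw [hμ, Complex.exp_add, Complex.exp_pi_mul_I, ← Complex.ofReal_exp, Real.exp_log hlam]
    ring
  have hnorm : ‖μ‖ ≤ R := by
    rw [hμ, Complex.norm_add_mul_I]
    exact Real.sqrt_le_iff.mpr ⟨hR0.le, hR⟩
  have hmv := norm_image_sub_le_of_norm_deriv_le_segment_01' (f := K μ e (n + 2))
    (f' := fun a => Complex.exp (μ * a) * (e (n + 2) a : ℝ)) (C := |e (n + 2) 1|)
    (fun a _ => (hasDerivAt_K hμ0 h0 hd (n + 2) a).hasDerivWithinAt) (by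
      intro a ha
      have h1 := abs_le_end hlam hlam1 hc h0 hd hper n hz a ⟨ha.1, ha.2.le⟩
      have h2 : ‖Complex.exp (μ * a)‖ ≤ 1 := by
        rw [Complex.norm_exp, Real.exp_le_one_iff]
        have h3 : (μ * a).re = Real.log lam * a := by simp [hμ]
        rw [h3]
        exact mul_nonpos_of_nonpos_of_nonneg (Real.log_nonpos hlam.le hlam1) ha.1
      rw [norm_mul, Complex.norm_real, Real.norm_eq_abs]
      calc _ ≤ 1 * |e (n + 2) a| := mul_le_mul_of_nonneg_right h2 (abs_nonneg _)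
        _ ≤ _ := by rw [one_mul]; exact h1)
  rw [K_diff hμ0 hexp h0 hper, norm_div, norm_mul, norm_pow, norm_pow, norm_neg, norm_one, one_pow,
    one_mul, Complex.norm_real, Real.norm_eq_abs, abs_of_nonneg (by positivity)] at hmv
  refine le_trans ?_ hmv
  have h5 : 0 < ‖μ‖ := norm_pos_iff.mpr hμ0
  exact div_le_div_of_nonneg_left (by positivity) (by positivity)
    (pow_le_pow_left₀ h5.le hnorm _)

end abstract

/-- Values at zero of the Appell polynomials. -/
noncomputable def phi : ℕ → ℝ[X]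
  | 0 => 1 - X
  | j + 1 => -(X * (1 - X) * H j)

lemma phi_succ (j : ℕ) : phi (j + 1) = X * (1 - X) * derivative (phi j) := by
  rcases j with _ | j
  · simp [phi, H]
  · simp only [phi, derivative_neg, ← H_succ]
    ring

lemma sum_phi (m : ℕ) :
    ∑ j ∈ range (m + 2), (((m + 1).choose j : ℕ) : ℝ[X]) * phi j = (1 - X) ^ 2 * H m := by
  induction m with
  | zero =>
    simp [sum_range_succ, phi, H]
    ring
  | succ m ih =>
    rw [sum_choose_succ_mul (fun i _ => phi i) (m + 1), ih]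
    have h2 : ∑ i ∈ range (m + 2), (((m + 1).choose i : ℕ) : ℝ[X]) * phi (i + 1) =
        X * (1 - X) * derivative ((1 - X) ^ 2 * H m) := by
      rw [← ih, derivative_sum, mul_sum]
      refine sum_congr rfl fun i _ => ?_
      rw [phi_succ, derivative_mul, derivative_natCast]
      ring
    rw [h2, H_succ]
    simp only [derivative_mul, derivative_pow_succ, derivative_sub, derivative_one, derivative_X,
      map_add, map_natCast, map_one]
    push_cast
    ring

/-- The normalised Appell polynomials. -/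
noncomputable def app (s : ℝ) (n : ℕ) (a : ℝ) : ℝ :=
  ∑ j ∈ range (n + 1), (phi j).eval s / j.factorial * (a ^ (n - j) / (n - j).factorial)

lemma app_deriv (s : ℝ) (n : ℕ) (a : ℝ) : HasDerivAt (app s (n + 1)) (app s n a) a := by
  have h1 : app s (n + 1) = fun a => ∑ j ∈ range (n + 1),
      (phi j).eval s / j.factorial * (a ^ (n - j + 1) / (n - j + 1).factorial) +
      (phi (n + 1)).eval s / (n + 1).factorial := by
    funext a
    unfold app
    rw [sum_range_succ]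
    congr 1
    · refine sum_congr rfl fun j hj => ?_
      rw [mem_range] at hj
      rw [show n + 1 - j = n - j + 1 by omega]
    · simp
  rw [h1]
  refine HasDerivAt.add_const _ ?_
  unfold app
  refine HasDerivAt.fun_sum fun j _ => HasDerivAt.const_mul _ ?_
  refine ((hasDerivAt_pow (n - j + 1) a).div_const _).congr_deriv ?_
  rw [Nat.factorial_succ]
  have : ((n - j).factorial : ℝ) ≠ 0 := by positivity
  push_cast
  field_simp

lemma app_at_zero (s : ℝ) (n : ℕ) : app s n 0 = (phi n).eval s / n.factorial := by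
  unfold app
  rw [sum_range_succ, sum_eq_zero]
  · simp
  · intro j hj
    rw [mem_range] at hj
    rw [zero_pow (by omega)]
    simp

lemma app_at_one (s : ℝ) (m : ℕ) :
    app s (m + 1) 1 = (1 - s) ^ 2 * (H m).eval s / (m + 1).factorial := by
  have h1 := congrArg (eval s) (sum_phi m)
  simp only [eval_finsetSum, eval_mul, eval_natCast, eval_pow, eval_sub, eval_one, eval_X] at h1
  rw [← h1, sum_div]
  unfold app
  refine sum_congr rfl fun j hj => ?_
  rw [mem_range] at hj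
  rw [Nat.cast_choose ℝ (by omega : j ≤ m + 1)]
  have : ((m + 1).factorial : ℝ) ≠ 0 := by positivity
  have : ((m + 1 - j).factorial : ℝ) ≠ 0 := by positivity
  have : (j.factorial : ℝ) ≠ 0 := by positivity
  field_simp
  simp

lemma factorial_big (n : ℕ) (hn : 44 ≤ n) : ((n : ℝ) / 3) ^ (n + 1) < n.factorial := by
  have h1 : (n : ℝ) / 3 < (11 / 10) ^ n := by
    induction n, hn using Nat.le_induction with
    | base => norm_num
    | succ n hn ih =>
      have : (44 : ℝ) ≤ n := by exact_mod_cast hn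
      rw [pow_succ]
      push_cast
      linarith
  have h2 := Real.pow_div_factorial_le_exp (n : ℝ) (Nat.cast_nonneg n) n
  have h3 : Real.exp n ≤ (30 / 11) ^ n := by
    rw [← Real.exp_one_pow]
    exact pow_le_pow_left₀ (Real.exp_pos 1).le (by linarith [Real.exp_one_lt_d9]) n
  have h4 : (0 : ℝ) < n.factorial := by positivity
  have h5 : (0 : ℝ) < n := by exact_mod_cast (by omega : 0 < n)
  rw [div_le_iff₀ h4] at h2
  have h6 : (n : ℝ) ^ n ≤ (30 / 11) ^ n * n.factorial :=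
    h2.trans (mul_le_mul_of_nonneg_right h3 h4.le)
  have h7 : ((n : ℝ) / 3) ^ n * (11 / 10) ^ n * (30 / 11) ^ n = n ^ n := by
    rw [← mul_pow, ← mul_pow]; congr 1; ring
  have h8 : ((n : ℝ) / 3) ^ n * (11 / 10) ^ n ≤ n.factorial := by
    rw [← h7, mul_comm _ (n.factorial : ℝ)] at h6
    exact le_of_mul_le_mul_right h6 (by positivity)
  rw [pow_succ]
  exact (mul_lt_mul_of_pos_left h1 (by positivity)).trans_le h8

lemma big_at_root_half (m : ℕ) (hm : 42 ≤ m) (s : ℝ) (hs1 : (3 / 4) ^ (m + 2) / 3 ≤ s)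
    (hs2 : s ≤ 1 / 2) (hz : (H m).eval s = 0) : 1 < |(H (m + 1)).eval s| := by
  have hs0 : 0 < s := lt_of_lt_of_le (by positivity) hs1
  have h1s : 0 < 1 - s := by linarith
  set lam := s / (1 - s) with hlam
  have hl0 : 0 < lam := by positivity
  have hl1 : lam ≤ 1 := by rw [hlam, div_le_one h1s]; linarith
  have hls : s ≤ lam := by rw [hlam, le_div_iff₀ h1s]; nlinarith
  have hn : (44 : ℝ) ≤ (m + 2 : ℕ) := by exact_mod_cast (by omega : 44 ≤ m + 2)
  set n : ℝ := ((m + 2 : ℕ) : ℝ) with hn'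
  have hlog : -(3 / 10 * n + 11 / 10) ≤ Real.log lam := by
    rw [Real.le_log_iff_exp_le hl0]
    refine le_trans ?_ (hs1.trans hls)
    have e1 : Real.exp (-(3 / 10 * n + 11 / 10)) =
        Real.exp (-(3 / 10)) ^ (m + 2) * Real.exp (-(11 / 10)) := by
      rw [← Real.exp_nat_mul, ← Real.exp_add]; congr 1; ring
    have h1 : Real.exp (-(3 / 10)) ≤ 3 / 4 := by
      rw [Real.exp_neg, inv_le_comm₀ (Real.exp_pos _) (by norm_num)]
      have := Real.quadratic_le_exp_of_nonneg (x := 3 / 10) (by norm_num)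
      linarith
    have h2 : Real.exp (-(11 / 10)) ≤ 1 / 3 := by
      rw [Real.exp_neg, inv_le_comm₀ (Real.exp_pos _) (by norm_num)]
      have h3 := Real.quadratic_le_exp_of_nonneg (x := 1 / 10) (by norm_num)
      have h4 : Real.exp (11 / 10) = Real.exp 1 * Real.exp (1 / 10) := by
        rw [← Real.exp_add]; norm_num
      have h5 := Real.exp_one_gt_d9
      rw [h4]
      nlinarith
    rw [e1, div_eq_mul_one_div ((3 / 4 : ℝ) ^ (m + 2)) 3]
    exact mul_le_mul (pow_le_pow_left₀ (Real.exp_pos _).le h1 _) h2 (Real.exp_pos _).le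
      (by positivity)
  have hlog0 : Real.log lam ≤ 0 := Real.log_nonpos hl0.le hl1
  have hR : Real.log lam ^ 2 + Real.pi ^ 2 ≤ (n / 3) ^ 2 := by
    have h1 := Real.pi_lt_d2
    have h2 := Real.pi_pos
    nlinarith
  have key := fourier_bound (e := app s) (c0 := 1 - s) hl0 hl1 h1s.le
    (fun a => by simp [app, phi]) (app_deriv s)
    (fun k => by
      rw [app_at_zero, app_at_one, hlam]
      simp only [phi, eval_neg, eval_mul, eval_X, eval_sub, eval_one]
      field_simp) m (by rw [app_at_one, hz]; simp) (n / 3) (by positivity) hR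
  have e2 : (1 - s) * (1 + lam) = 1 := by rw [hlam]; field_simp; ring
  rw [e2, app_at_one, abs_div, abs_mul, abs_of_pos (by positivity : (0 : ℝ) < (1 - s) ^ 2),
    abs_of_pos (by positivity : (0 : ℝ) < ((m + 1 + 1).factorial : ℝ)),
    div_le_div_iff₀ (by positivity) (by positivity)] at key
  have h3 := factorial_big (m + 2) (by omega)
  rw [← hn'] at h3
  have h4 : (0 : ℝ) < (n / 3) ^ (m + 3) := by positivity
  have h5 : (1 - s) ^ 2 ≤ 1 := by nlinarith
  by_contra hle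
  push Not at hle
  have h6 : (1 - s) ^ 2 * |(H (m + 1)).eval s| ≤ 1 := by
    nlinarith [abs_nonneg ((H (m + 1)).eval s), sq_nonneg (1 - s)]
  have h7 := mul_le_mul_of_nonneg_right h6 h4.le
  rw [show m + 2 + 1 = m + 3 from rfl] at h3
  rw [show m + 1 + 1 = m + 2 from rfl] at key
  linarith

lemma big_at_root (m : ℕ) (hm : 42 ≤ m) (s : ℝ) (hs1 : (3 / 4) ^ (m + 2) / 3 ≤ s)
    (hs2 : (3 / 4) ^ (m + 2) / 3 ≤ 1 - s) (hz : (H m).eval s = 0) :
    1 < |(H (m + 1)).eval s| := by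
  rcases le_total s (1 / 2) with h | h
  · exact big_at_root_half m hm s hs1 h hz
  · have := big_at_root_half m hm (1 - s) hs2 (by linarith) (by rw [eval_H_symm, hz, mul_zero])
    rwa [eval_H_symm, abs_mul, abs_pow, abs_neg, abs_one, one_pow, one_mul] at this

end Pool.Agent.Lib.MP_b94b02_co
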